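import Mathlib

set_option autoImplicit false

/-!
# Illumination of a convex set by finitely many directions

`Lit K t x`: the direction `t` illuminates the point `x` of `K`.
`TC K x`: the closed tangent cone of `K` at `x` (as a cone with apex `0`).
-/

namespace Pool.Agent.Y512

open Set Topology

variable {E : Type*} [NormedAddCommGroup E] [NormedSpace ℝ E]

/-- the direction `t` moves `x` into the interior of `K` -/
def Lit (K : Set E) (t x : E) : Prop := ∃ τ : ℝ, 0 < τ ∧ x + τ • t ∈ interior K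

/-- the closed tangent cone of `K` at `x`, with apex `0` -/
def TC (K : Set E) (x : E) : Set E :=
  closure {t | ∃ s : ℝ, 0 ≤ s ∧ ∃ y ∈ K, t = s • (y - x)}

theorem TC_of_mem {K : Set E} {x y : E} (hy : y ∈ K) : y - x ∈ TC K x :=
  subset_closure ⟨1, zero_le_one, y, hy, by simp⟩

theorem TC_smul {K : Set E} {x t : E} {r : ℝ} (hr : 0 ≤ r) (ht : t ∈ TC K x) :
    r • t ∈ TC K x := by
  have hc : Continuous fun z : E => r • z := continuous_const_smul r
  refine map_mem_closure hc ht ?_
  rintro z ⟨s, hs, y, hy, rfl⟩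
  exact ⟨r * s, mul_nonneg hr hs, y, hy, by rw [smul_smul]⟩

theorem TC_add {K : Set E} (hK : Convex ℝ K) {x t u : E} (ht : t ∈ TC K x) (hu : u ∈ TC K x) :
    t + u ∈ TC K x := by
  refine map_mem_closure₂ continuous_add ht hu ?_
  rintro a ⟨s, hs, y, hy, rfl⟩ b ⟨r, hr, z, hz, rfl⟩
  rcases (add_nonneg hs hr).eq_or_lt with h | h
  · have h1 : s = 0 := by linarith
    have h2 : r = 0 := by linarith
    exact ⟨0, le_rfl, y, hy, by simp [h1, h2]⟩
  · refine ⟨s + r, h.le, (s / (s + r)) • y + (r / (s + r)) • z, ?_, ?_⟩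
    · apply hK hy hz (by positivity) (by positivity)
      field_simp
    · rw [smul_sub (s + r), smul_add (s + r), smul_smul, smul_smul, mul_div_cancel₀ _ h.ne',
        mul_div_cancel₀ _ h.ne', smul_sub, smul_sub, add_smul]
      abel

theorem lit_of_TC {K : Set E} (hK : Convex ℝ K) {x y t : E} (hxy : x - y ∈ TC K x)
    (hl : Lit K t y) : Lit K t x := by
  obtain ⟨τ, hτ, hi⟩ := hl
  obtain ⟨ρ, hρ, hball⟩ := Metric.isOpen_iff.1 isOpen_interior _ hi
  obtain ⟨b, ⟨s, hs, z, hz, rfl⟩, hb⟩ := Metric.mem_closure_iff.1 hxy ρ hρ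
  set e := s • (z - x) - (x - y) with he
  have hq : y + τ • t - e ∈ interior K := by
    apply hball
    rw [Metric.mem_ball, dist_eq_norm]
    have : y + τ • t - e - (y + τ • t) = -e := by abel
    rw [this, norm_neg, he, ← dist_eq_norm, dist_comm]
    exact hb
  have h1 : (0 : ℝ) < 1 + s := by linarith
  refine ⟨τ / (1 + s), by positivity, ?_⟩
  have := hK.combo_interior_self_mem_interior hq hz (a := 1 / (1 + s)) (b := s / (1 + s))
    (by positivity) (by positivity) (by field_simp)
  convert this using 1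
  rw [he]
  have h2 : (1 + s) • (x + (τ / (1 + s)) • t) = (1 + s) •
      ((1 / (1 + s)) • (y + τ • t - (s • (z - x) - (x - y))) + (s / (1 + s)) • z) := by
    rw [smul_add, smul_smul, mul_div_cancel₀ _ h1.ne', smul_add, smul_smul, smul_smul,
      mul_div_cancel₀ _ h1.ne', mul_div_cancel₀ _ h1.ne']
    simp only [add_smul, one_smul, smul_sub]
    abel
  exact smul_right_injective E h1.ne' h2

/-- finitely many directions that illuminate every point of the compact convex set `K` give
as many translates of the interior that cover `K` -/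
theorem cover_of_lit {K : Set E} (hK : Convex ℝ K) (hc : IsCompact K) (S : Finset E)
    (h : ∀ x ∈ K, ∃ t ∈ S, Lit K t x) :
    ∃ T : Finset E, T.card ≤ S.card ∧ K ⊆ ⋃ t ∈ T, (fun x => t + x) '' interior K := by
  classical
  let U : ℕ → Set E := fun n => {x | ∃ t ∈ S, x + (1 / ((n : ℝ) + 1)) • t ∈ interior K}
  have hmono : ∀ (x : E), x ∈ K → ∀ (t : E) (δ τ : ℝ), 0 < δ → δ ≤ τ →
      x + τ • t ∈ interior K → x + δ • t ∈ interior K := by
    intro x hx t δ τ hδ hδτ hi
    have hτ : 0 < τ := lt_of_lt_of_le hδ hδτ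
    have := hK.combo_interior_self_mem_interior hi hx (a := δ / τ) (b := 1 - δ / τ)
      (by positivity) (by rw [sub_nonneg, div_le_one hτ]; exact hδτ) (by ring)
    convert this using 1
    rw [smul_add, smul_smul, div_mul_cancel₀ _ hτ.ne', sub_smul, one_smul]
    abel
  have hopen : ∀ n, IsOpen (U n) := by
    intro n
    have : U n = ⋃ t ∈ S, (fun x => x + (1 / ((n : ℝ) + 1)) • t) ⁻¹' interior K := by
      ext x; simp [U]
    rw [this]
    refine isOpen_biUnion fun t _ => isOpen_interior.preimage (by fun_prop)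
  have hcov : K ⊆ ⋃ n, U n := by
    intro x hx
    obtain ⟨t, ht, τ, hτ, hi⟩ := h x hx
    obtain ⟨n, hn⟩ := exists_nat_one_div_lt hτ
    exact mem_iUnion.2 ⟨n, t, ht, hmono x hx t _ τ (by positivity) hn.le hi⟩
  obtain ⟨F, hF⟩ := hc.elim_finite_subcover U hopen hcov
  let N := F.sup id
  refine ⟨S.image fun t => -((1 / ((N : ℝ) + 1)) • t), Finset.card_image_le, ?_⟩
  intro x hx
  obtain ⟨n, hn, t, ht, hi⟩ : ∃ n ∈ F, x ∈ U n := by simpa using hF hx
  have hnN : n ≤ N := Finset.le_sup (f := id) hn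
  have hi' := hmono x hx t (1 / ((N : ℝ) + 1)) _ (by positivity)
    (one_div_le_one_div_of_le (by positivity) (by exact_mod_cast Nat.succ_le_succ hnN)) hi
  simp only [mem_iUnion]
  refine ⟨_, Finset.mem_image_of_mem _ ht, x + (1 / ((N : ℝ) + 1)) • t, hi', ?_⟩
  simp

end Pool.Agent.Y512
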