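import Mathlib
import Pool.Agent.Y512.Lit

set_option autoImplicit false

/-!
# The exit lemma

`K` is a convex body in the cube `[-1,1]^n` that touches every facet. For a point `x` of `K`
the cone `x - TC K x` meets the `(n-2)`-skeleton of the cube, unless `x` is a contact point
`a i b` at which the tangent cone meets the facet hyperplane only in the apex.
-/

namespace Pool.Agent.Y512

open Set Topology

/-- the sign of a Boolean as a real number -/
def sg (b : Bool) : ℝ := if b then 1 else -1

theorem abs_sg (b : Bool) : |sg b| = 1 := by cases b <;> simp [sg]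

theorem sg_mul_sg (b : Bool) : sg b * sg b = 1 := by cases b <;> simp [sg]

theorem eq_sg_of_abs {a : ℝ} (h : |a| = 1) : ∃ b, a = sg b := by
  rcases (abs_eq zero_le_one).1 h with h | h
  · exact ⟨true, by simp [sg, h]⟩
  · exact ⟨false, by simp [sg, h]⟩

variable {n : ℕ}

/-- the points of the cube with at least two coordinates of absolute value one -/
def Skel (n : ℕ) : Set (Fin n → ℝ) :=
  {y | (∀ i, |y i| ≤ 1) ∧ ∃ i j, i ≠ j ∧ |y i| = 1 ∧ |y j| = 1}

/-- the tangent cone at `a` meets the hyperplane `x i = const` only in the apex -/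
def Bad (K : Set (Fin n → ℝ)) (i : Fin n) (a : Fin n → ℝ) : Prop :=
  ∀ t ∈ TC K a, t i = 0 → t = 0

theorem exit_ray {y w : Fin n → ℝ} (hy : ∀ i, |y i| ≤ 1) (hw : w ≠ 0) :
    ∃ s : ℝ, 0 ≤ s ∧ (∀ i, |(y + s • w) i| ≤ 1) ∧ ∃ j, w j ≠ 0 ∧ |(y + s • w) j| = 1 := by
  classical
  let J := Finset.univ.filter fun j => w j ≠ 0
  have hJ : J.Nonempty := by
    by_contra h
    apply hw
    funext j
    by_contra hj
    exact h ⟨j, by simpa [J] using hj⟩
  let f : Fin n → ℝ := fun j => (|w j| - y j * w j) / (w j * w j)
  obtain ⟨j, hj, hmin⟩ := J.exists_min_image f hJ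
  have hwj : w j ≠ 0 := by simpa [J] using hj
  have hpos : ∀ k, w k ≠ 0 → 0 ≤ f k := by
    intro k hk
    apply div_nonneg
    · have h1 : y k * w k ≤ |y k * w k| := le_abs_self _
      rw [abs_mul] at h1
      have h2 : |y k| * |w k| ≤ 1 * |w k| := by
        apply mul_le_mul_of_nonneg_right (hy k) (abs_nonneg _)
      linarith
    · exact mul_self_nonneg _
  have hval : ∀ k, w k ≠ 0 → (y k + f k * w k) * w k = |w k| := by
    intro k hk
    simp only [f]
    field_simp
    ring
  refine ⟨f j, hpos j hwj, ?_, j, hwj, ?_⟩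
  · intro i
    simp only [Pi.add_apply, Pi.smul_apply, smul_eq_mul]
    by_cases hi : w i = 0
    · rw [hi, mul_zero, add_zero]; exact hy i
    · have h1 := hmin i (by simp [J, hi])
      have h0 := hpos j hwj
      have h2 := hval i hi
      have h3 := abs_le.1 (hy i)
      rcases lt_or_gt_of_ne hi with hneg | hp
      · rw [abs_of_neg hneg] at h2
        have h4 : y i + f i * w i = -1 := by
          have : (y i + f i * w i + 1) * w i = 0 := by linarith
          rcases mul_eq_zero.1 this with h | h
          · linarith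
          · exact absurd h hi
        rw [abs_le]
        constructor
        · nlinarith
        · nlinarith
      · rw [abs_of_pos hp] at h2
        have h4 : y i + f i * w i = 1 := by
          have : (y i + f i * w i - 1) * w i = 0 := by linarith
          rcases mul_eq_zero.1 this with h | h
          · linarith
          · exact absurd h hi
        rw [abs_le]
        constructor
        · nlinarith
        · nlinarith
  · simp only [Pi.add_apply, Pi.smul_apply, smul_eq_mul]
    have h2 := hval j hwj
    have h3 : |y j + f j * w j| * |w j| = |w j| := by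
      rw [← abs_mul, h2, abs_abs]
    have h4 : |w j| ≠ 0 := abs_ne_zero.2 hwj
    have h5 : (|y j + f j * w j| - 1) * |w j| = 0 := by linarith
    rcases mul_eq_zero.1 h5 with h | h
    · linarith
    · exact absurd h h4

theorem exit_lemma (hn : 2 ≤ n) {K : Set (Fin n → ℝ)} (hK : Convex ℝ K)
    (hKC : ∀ y ∈ K, ∀ i, |y i| ≤ 1) (hint : (interior K).Nonempty)
    (a : Fin n → Bool → Fin n → ℝ) (ha : ∀ i b, a i b ∈ K) (ha1 : ∀ i b, a i b i = sg b)
    {x : Fin n → ℝ} (hx : x ∈ K) :
    (∃ y ∈ Skel n, x - y ∈ TC K x) ∨ ∃ i b, x = a i b ∧ Bad K i (a i b) := by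
  classical
  by_contra hcon
  push Not at hcon
  obtain ⟨h1, h2⟩ := hcon
  have hxx : x - x ∈ TC K x := TC_of_mem hx
  -- the final step
  have fin : ∀ (y w : Fin n → ℝ) (i : Fin n), (∀ k, |y k| ≤ 1) → x - y ∈ TC K x →
      |y i| = 1 → w ≠ 0 → -w ∈ TC K x → w i = 0 → False := by
    intro y w i hy hxy hyi hw hwT hwi
    obtain ⟨s, hs, hall, j, hj, hj1⟩ := exit_ray hy hw
    have hji : i ≠ j := by
      rintro rfl
      exact hj hwi
    refine h1 (y + s • w) ⟨hall, i, j, hji, ?_, hj1⟩ ?_
    · simp [hwi, hyi]
    · have := TC_add hK hxy (TC_smul hs hwT)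
      convert this using 1
      rw [smul_neg]
      abel
  -- an interior point and a second one
  obtain ⟨c, hc⟩ := hint
  obtain ⟨δ, hδ, hball⟩ := Metric.isOpen_iff.1 isOpen_interior c hc
  have hshift : ∀ k : Fin n, c + (δ / 2) • (Pi.single k 1 : Fin n → ℝ) ∈ K := by
    intro k
    apply interior_subset
    apply hball
    rw [Metric.mem_ball, dist_eq_norm]
    have : c + (δ / 2) • (Pi.single k 1 : Fin n → ℝ) - c = (δ / 2) • (Pi.single k 1) := by
      abel
    rw [this, norm_smul, Real.norm_of_nonneg (by positivity)]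
    have h3 : ‖(Pi.single k (1 : ℝ) : Fin n → ℝ)‖ ≤ 1 := by
      rw [pi_norm_le_iff_of_nonneg zero_le_one]
      intro i
      by_cases h : i = k
      · subst h; simp
      · simp [Pi.single_eq_of_ne h]
    nlinarith
  have hcK := interior_subset hc
  -- a point different from `x`
  obtain ⟨z, hz, hzx⟩ : ∃ z ∈ K, z ≠ x := by
    by_contra h
    push Not at h
    have e1 := h c hcK
    have e2 := h _ (hshift ⟨0, by omega⟩)
    rw [e1] at e2
    have e3 := congrFun e2 ⟨0, by omega⟩
    simp at e3
    linarith
  have hw0 : x - z ≠ 0 := sub_ne_zero.2 (Ne.symm hzx)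
  obtain ⟨s, hs, hall, i, hi, hi1⟩ := exit_ray (hKC x hx) hw0
  set y0 := x + s • (x - z) with hy0
  have hv : x - y0 ∈ TC K x := by
    have := TC_smul hs (TC_of_mem (x := x) hz)
    convert this using 1
    rw [hy0, smul_sub, smul_sub]
    abel
  obtain ⟨b, hb⟩ := eq_sg_of_abs hi1
  have hu : a i b - x ∈ TC K x := TC_of_mem (ha i b)
  by_cases hxi : x i = sg b
  · -- `x` is on the facet
    have hxi1 : |x i| = 1 := by rw [hxi, abs_sg]
    by_cases hxa : x = a i b
    · have hnb := h2 i b hxa
      unfold Bad at hnb
      push Not at hnb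
      obtain ⟨t, ht, ht0, ht1⟩ := hnb
      refine fin x (-t) i (hKC x hx) hxx hxi1 (neg_ne_zero.2 ht1) ?_ (by simp [ht0])
      rw [neg_neg, hxa]
      exact ht
    · refine fin x (x - a i b) i (hKC x hx) hxx hxi1 (sub_ne_zero.2 hxa) ?_ ?_
      · rw [neg_sub]; exact hu
      · simp [hxi, ha1]
  · -- `x` is not on the facet
    have hsum : (a i b - x) + (x - y0) ∈ TC K x := TC_add hK hu hv
    by_cases hw : y0 - a i b = 0
    · have hya : y0 = a i b := sub_eq_zero.1 hw
      have hnu : -(a i b - x) ∈ TC K x := by
        rw [neg_sub, ← hya]; exact hv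
      set u := a i b - x with hu_def
      have hui : u i ≠ 0 := by
        simp only [hu_def, Pi.sub_apply, ha1]
        intro h
        exact hxi (by linarith)
      -- a point off the line
      have key : ∀ z' ∈ K, z' - x = ((z' - x) i / u i) • u := by
        intro z' hz'
        by_contra hne
        set t := z' - x with ht
        have htT : t ∈ TC K x := TC_of_mem hz'
        have hmu : (-(t i / u i)) • u ∈ TC K x := by
          rcases le_total 0 (-(t i / u i)) with h | h
          · exact TC_smul h hu
          · have := TC_smul (r := t i / u i) (by linarith) hnu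
            rwa [smul_neg, ← neg_smul] at this
        refine fin y0 (-(t + (-(t i / u i)) • u)) i hall hv hi1 ?_ ?_ ?_
        · rw [neg_ne_zero]
          intro h
          apply hne
          rw [neg_smul, ← sub_eq_add_neg, sub_eq_zero] at h
          exact h
        · rw [neg_neg]
          exact TC_add hK htT hmu
        · simp only [Pi.neg_apply, Pi.add_apply, Pi.smul_apply, smul_eq_mul]
          field_simp
          ring
      -- choose `k ≠ i`
      obtain ⟨k, hk⟩ : ∃ k : Fin n, k ≠ i := by
        have : Nontrivial (Fin n) := Fin.nontrivial_iff_two_le.2 hn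
        exact exists_ne i
      have e1 := key c hcK
      have e2 := key _ (hshift k)
      have e3 : (c + (δ / 2) • (Pi.single k 1 : Fin n → ℝ) - x) i = (c - x) i := by
        simp [Pi.single_eq_of_ne hk.symm]
      rw [e3] at e2
      have e4 := e2.trans e1.symm
      have e5 := congrFun e4 k
      simp at e5
      linarith
    · refine fin y0 (y0 - a i b) i hall hv hi1 hw ?_ ?_
      · convert hsum using 1
        abel
      · rw [Pi.sub_apply, hb, ha1, sub_self]

end Pool.Agent.Y512
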