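import Mathlib
import Pool.Agent.Y512.Exit

set_option autoImplicit false

/-!
# The box lemma

If a convex set contains, for every coordinate `i`, a chord of length `2` parallel to the
`i`-th axis, then it contains a translate of every box whose edges have total length at most `2`,
and its interior contains a translate of every box of total edge length less than `2`.
-/

namespace Pool.Agent.Y512

open Set Topology

variable {n : ℕ}

/-- data: for each coordinate a chord of `K` parallel to the axis, between the two facets -/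
structure Chords (K : Set (Fin n → ℝ)) (a : Fin n → Bool → Fin n → ℝ) : Prop where
  mem : ∀ i b, a i b ∈ K
  self : ∀ i b, a i b i = sg b
  off : ∀ i j, j ≠ i → a i true j = a i false j

theorem box_mem {K : Set (Fin n → ℝ)} (hK : Convex ℝ K) {a : Fin n → Bool → Fin n → ℝ}
    (h : Chords K a) (lam : Fin n → ℝ) (hl : ∀ i, 0 < lam i) (hs : ∑ i, lam i = 1)
    (u : Fin n → ℝ)
    (hu : ∀ j, |u j - (∑ i, lam i • ((1 / 2 : ℝ) • (a i true + a i false))) j| ≤ lam j) :
    u ∈ K := by
  classical
  set m := ∑ i, lam i • ((1 / 2 : ℝ) • (a i true + a i false)) with hm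
  let z : Fin n → ℝ := fun i => u i - m i
  let bp : Fin n → Fin n → ℝ := fun i =>
    ((lam i + z i) / (2 * lam i)) • a i true + ((lam i - z i) / (2 * lam i)) • a i false
  have hb : ∀ i, bp i ∈ K := by
    intro i
    have h1 := abs_le.1 (hu i)
    have h2 := hl i
    apply hK (h.mem i true) (h.mem i false)
    · apply div_nonneg _ (by positivity)
      simp only [z]; linarith
    · apply div_nonneg _ (by positivity)
      simp only [z]; linarith
    · field_simp
      ring
  have hsum : ∑ i, lam i • bp i ∈ K :=
    hK.sum_mem (fun i _ => (hl i).le) hs (fun i _ => hb i)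
  have hdiff : ∀ i, a i true - a i false = (2 : ℝ) • (Pi.single i 1 : Fin n → ℝ) := by
    intro i
    funext j
    by_cases hj : j = i
    · subst hj
      simp only [Pi.sub_apply, h.self, sg, Pi.smul_apply, Pi.single_eq_same, smul_eq_mul]
      norm_num
    · simp [Pi.single_eq_of_ne hj, h.off i j hj]
  have hterm : ∀ i, lam i • bp i =
      lam i • ((1 / 2 : ℝ) • (a i true + a i false)) + z i • (Pi.single i 1 : Fin n → ℝ) := by
    intro i
    have h2 := hl i
    have h3 : (Pi.single i 1 : Fin n → ℝ) = (1 / 2 : ℝ) • (a i true - a i false) := by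
      rw [hdiff, smul_smul]; norm_num
    rw [h3]
    simp only [bp]
    funext j
    simp only [Pi.smul_apply, Pi.add_apply, Pi.sub_apply, smul_eq_mul]
    field_simp
    ring
  have : ∑ i, lam i • bp i = u := by
    rw [Finset.sum_congr rfl fun i _ => hterm i, Finset.sum_add_distrib, ← hm]
    funext j
    simp only [Pi.add_apply, Finset.sum_apply, Pi.smul_apply, smul_eq_mul, z]
    rw [Finset.sum_eq_single j]
    · simp
    · intro i _ hij
      simp [Pi.single_eq_of_ne hij.symm]
    · simp
  rwa [this] at hsum

theorem box_fits (hn : 0 < n) {K : Set (Fin n → ℝ)} (hK : Convex ℝ K)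
    {a : Fin n → Bool → Fin n → ℝ}
    (h : Chords K a) (z ρ : Fin n → ℝ) (hρ : ∀ i, 0 ≤ ρ i) (hs : ∑ i, ρ i < 1) :
    ∃ t : Fin n → ℝ, ∀ x : Fin n → ℝ, (∀ i, |x i - z i| ≤ ρ i) → x + t ∈ interior K := by
  classical
  have hn' : (0 : ℝ) < n := by exact_mod_cast hn
  set η := (1 - ∑ i, ρ i) / n with hη
  have hηp : 0 < η := by
    rw [hη]; apply div_pos _ hn'; linarith
  let lam : Fin n → ℝ := fun i => ρ i + η
  have hl : ∀ i, 0 < lam i := fun i => by
    have := hρ i
    simp only [lam]; linarith
  have hsl : ∑ i, lam i = 1 := by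
    simp only [lam]
    rw [Finset.sum_add_distrib, Finset.sum_const, Finset.card_univ, Fintype.card_fin,
      nsmul_eq_mul, hη, mul_div_cancel₀ _ hn'.ne']
    ring
  refine ⟨(∑ i, lam i • ((1 / 2 : ℝ) • (a i true + a i false))) - z, fun x hx => ?_⟩
  rw [mem_interior_iff_mem_nhds, Metric.mem_nhds_iff]
  refine ⟨η, hηp, fun u hu => ?_⟩
  apply box_mem hK h lam hl hsl u
  intro j
  have h1 : |u j - (x + ((∑ i, lam i • ((1 / 2 : ℝ) • (a i true + a i false))) - z)) j| < η := by
    rw [Metric.mem_ball, dist_eq_norm] at hu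
    refine lt_of_le_of_lt ?_ hu
    have := norm_le_pi_norm (u - (x + (∑ i, lam i • (1 / 2 : ℝ) • (a i true + a i false) - z))) j
    rwa [Real.norm_eq_abs, Pi.sub_apply] at this
  have h2 := hx j
  simp only [Pi.add_apply, Pi.sub_apply] at h1
  rw [abs_lt] at h1
  rw [abs_le] at h2 ⊢
  simp only [lam] at *
  constructor <;> linarith [h1.1, h1.2, h2.1, h2.2]

end Pool.Agent.Y512
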