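import Mathlib
import Pool.Agent.Y512.Frame

set_option autoImplicit false

/-!
# Reduction to the normal form

Every convex body is, up to an affine map, inscribed in the cube `[-1,1]^n`, contains for each
coordinate a chord of length `2` parallel to the axis, and its tangent cone at the lower end of
each chord contains a nonzero vector of the facet hyperplane. For a body in this position it
suffices to illuminate the `(n-2)`-skeleton of the cube and the `n` upper ends of the chords.
-/

namespace Pool.Agent.Y512

open Set Topology Matrix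

/-- `K` is covered by at most `N` translates of its interior -/
def CovN {E : Type*} [NormedAddCommGroup E] [NormedSpace ℝ E] (N : ℕ) (K : Set E) : Prop :=
  ∃ T : Finset E, T.card ≤ N ∧ K ⊆ ⋃ t ∈ T, (fun x => t + x) '' interior K

variable {n : ℕ}

/-- the normal form -/
structure NF (K : Set (Fin n → ℝ)) (a : Fin n → Bool → Fin n → ℝ) : Prop where
  conv : Convex ℝ K
  comp : IsCompact K
  inte : (interior K).Nonempty
  cube : ∀ y ∈ K, ∀ i, |y i| ≤ 1
  chords : Chords K a
  good : ∀ i, ¬ Bad K i (a i false)

/-- the illumination criterion for a body in normal form -/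
theorem covN_of_lit (hn : 2 ≤ n) {K : Set (Fin n → ℝ)} {a : Fin n → Bool → Fin n → ℝ}
    (h : NF K a) (N : ℕ) (S : Finset (Fin n → ℝ)) (hS : S.card ≤ N)
    (h1 : ∀ y ∈ Skel n, ∃ t ∈ S, Lit K t y) (h2 : ∀ i, ∃ t ∈ S, Lit K t (a i true)) :
    CovN N K := by
  obtain ⟨T, hT, hcov⟩ := cover_of_lit h.conv h.comp S (by
    intro x hx
    rcases exit_lemma hn h.conv h.cube h.inte a h.chords.mem h.chords.self hx with
      ⟨y, hy, hxy⟩ | ⟨i, b, hxb, hbad⟩
    · obtain ⟨t, ht, hl⟩ := h1 y hy
      exact ⟨t, ht, lit_of_TC h.conv hxy hl⟩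
    · cases b with
      | false => exact absurd hbad (h.good i)
      | true => rw [hxb]; exact h2 i)
  exact ⟨T, hT.trans hS, hcov⟩

theorem covN_of_image {E F : Type*} [NormedAddCommGroup E] [NormedSpace ℝ E]
    [NormedAddCommGroup F] [NormedSpace ℝ F] (A : E ≃L[ℝ] F) (b : F) (N : ℕ) (K : Set E)
    (h : CovN N ((fun x => A x + b) '' K)) : CovN N K := by
  classical
  obtain ⟨T, hT, hcov⟩ := h
  have hint : interior ((fun x => A x + b) '' K) = (fun x => A x + b) '' interior K := by
    have := (A.toHomeomorph.trans (Homeomorph.addRight b)).image_interior K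
    exact this.symm
  refine ⟨T.image A.symm, Finset.card_image_le.trans hT, fun x hx => ?_⟩
  have h1 := hcov (mem_image_of_mem _ hx)
  rw [hint] at h1
  simp only [mem_iUnion] at h1 ⊢
  obtain ⟨t, ht, y, ⟨z, hz, rfl⟩, hy⟩ := h1
  refine ⟨A.symm t, Finset.mem_image_of_mem _ ht, z, hz, ?_⟩
  apply A.injective
  simp only [map_add, ContinuousLinearEquiv.apply_symm_apply]
  have h2 : t + (A z + b) = A x + b := hy
  rw [← add_assoc] at h2
  exact add_right_cancel h2

theorem TC_map {E F : Type*} [NormedAddCommGroup E] [NormedSpace ℝ E]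
    [NormedAddCommGroup F] [NormedSpace ℝ F] (A : E ≃L[ℝ] F) (b : F) (K : Set E) (x t : E)
    (h : t ∈ TC K x) : A t ∈ TC ((fun x => A x + b) '' K) (A x + b) := by
  refine map_mem_closure A.continuous h ?_
  rintro _ ⟨s, hs, y, hy, rfl⟩
  refine ⟨s, hs, A y + b, mem_image_of_mem _ hy, ?_⟩
  rw [map_smul, map_sub]
  congr 1
  abel

/-- reduction of an upper bound for the number of translates to the normal form -/
theorem covN_of_NF (hn : 2 ≤ n) (N : ℕ)
    (H : ∀ (K : Set (Fin n → ℝ)) (a : Fin n → Bool → Fin n → ℝ), NF K a → CovN N K)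
    {K : Set (Fin n → ℝ)} (hK : Convex ℝ K) (hc : IsCompact K) (hi : (interior K).Nonempty) :
    CovN N K := by
  classical
  obtain ⟨G, hdet, p, q, hp, hq, hpq, hle, hge, hbad⟩ := exists_extremal hn hK hc hi
  have hunit : IsUnit G.det := isUnit_iff_ne_zero.2 hdet.ne'
  -- signs
  let ε : Fin n → ℝ := fun i => if BadF K (G i) (p i) then 1 else -1
  have hε : ∀ i, ε i * ε i = 1 := by
    intro i; simp only [ε]; split_ifs <;> norm_num
  have hε0 : ∀ i, ε i ≠ 0 := by
    intro i h
    have := hε i
    rw [h] at this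
    norm_num at this
  -- the linear map
  let L : (Fin n → ℝ) →ₗ[ℝ] (Fin n → ℝ) :=
    (Matrix.mulVecLin (Matrix.diagonal (fun i => 2 * ε i) * G))
  have hLdet : (Matrix.diagonal (fun i => 2 * ε i) * G).det ≠ 0 := by
    rw [Matrix.det_mul, Matrix.det_diagonal]
    refine mul_ne_zero (Finset.prod_ne_zero_iff.2 fun i _ => ?_) hdet.ne'
    exact mul_ne_zero two_ne_zero (hε0 i)
  have hLunit : IsUnit (Matrix.diagonal (fun i => 2 * ε i) * G).det :=
    isUnit_iff_ne_zero.2 hLdet
  have hLinj : Function.Injective L := by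
    intro x y hxy
    have h1 : (Matrix.diagonal (fun i => 2 * ε i) * G) *ᵥ x =
      (Matrix.diagonal (fun i => 2 * ε i) * G) *ᵥ y := hxy
    have h2 := congrArg (fun v => (Matrix.diagonal (fun i => 2 * ε i) * G)⁻¹ *ᵥ v) h1
    simp only [Matrix.mulVec_mulVec, Matrix.nonsing_inv_mul _ hLunit, Matrix.one_mulVec] at h2
    exact h2
  let A : (Fin n → ℝ) ≃L[ℝ] (Fin n → ℝ) :=
    (LinearEquiv.ofInjectiveEndo L hLinj).toContinuousLinearEquiv
  have hA : ∀ x i, A x i = 2 * ε i * (G i ⬝ᵥ x) := by
    intro x i
    have : A x = L x := rfl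
    rw [this]
    simp only [L, Matrix.mulVecLin_apply]
    rw [← Matrix.mulVec_mulVec, Matrix.mulVec_diagonal]
    rfl
  let b : Fin n → ℝ := fun i => ε i * (-2 * (G i ⬝ᵥ q i) - 1)
  let a : Fin n → Bool → Fin n → ℝ := fun i c =>
    if (ε i = 1 ↔ c = true) then A (p i) + b else A (q i) + b
  have hval : ∀ x i, (A x + b) i = ε i * (2 * (G i ⬝ᵥ (x - q i)) - 1) := by
    intro x i
    rw [Pi.add_apply, hA, dotProduct_sub]
    simp only [b]
    ring
  have hGpq : ∀ i k, G k ⬝ᵥ (p i - q i) = (Pi.single i 1 : Fin n → ℝ) k := by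
    intro i k
    rw [← hpq i]
    rfl
  have hpi : ∀ i, (A (p i) + b) i = ε i := by
    intro i
    rw [hval, hGpq]
    simp
    ring
  have hqi : ∀ i, (A (q i) + b) i = -ε i := by
    intro i
    rw [hval]
    simp
  have hoff : ∀ i j, j ≠ i → (A (p i) + b) j = (A (q i) + b) j := by
    intro i j hj
    rw [Pi.add_apply, Pi.add_apply, hA, hA]
    have h1 := hGpq i j
    rw [Pi.single_eq_of_ne hj, dotProduct_sub] at h1
    have h2 : G j ⬝ᵥ p i = G j ⬝ᵥ q i := by linarith
    rw [h2]
  have hεcases : ∀ i, ε i = 1 ∨ ε i = -1 := by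
    intro i; simp only [ε]; split_ifs <;> simp
  apply covN_of_image A b
  apply H _ a
  have hcont : Continuous fun x => A x + b := by fun_prop
  constructor
  · -- convex
    rintro _ ⟨x, hx, rfl⟩ _ ⟨y, hy, rfl⟩ s t hs ht hst
    refine ⟨s • x + t • y, hK hx hy hs ht hst, ?_⟩
    change A (s • x + t • y) + b = s • (A x + b) + t • (A y + b)
    rw [map_add, map_smul, map_smul, smul_add, smul_add]
    nth_rewrite 1 [← one_smul ℝ b]
    rw [← hst, add_smul]
    abel
  · exact hc.image hcont
  · have : interior ((fun x => A x + b) '' K) = (fun x => A x + b) '' interior K := by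
      have := (A.toHomeomorph.trans (Homeomorph.addRight b)).image_interior K
      exact this.symm
    rw [this]
    exact hi.image _
  · rintro _ ⟨y, hy, rfl⟩ i
    change |(A y + b) i| ≤ 1
    rw [hval, abs_mul]
    have h1 : |ε i| = 1 := by rcases hεcases i with h | h <;> simp [h]
    rw [h1, one_mul, abs_le]
    have h2 := hge i y hy
    have h3 := hle i y hy
    have h4 : y - p i = (y - q i) - (p i - q i) := by abel
    rw [h4, dotProduct_sub, hGpq, Pi.single_eq_same] at h3
    constructor <;> linarith
  · -- chords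
    constructor
    · intro i c
      simp only [a]
      split_ifs
      · exact mem_image_of_mem _ (hp i)
      · exact mem_image_of_mem _ (hq i)
    · intro i c
      simp only [a]
      rcases hεcases i with h | h
      · cases c
        · simp only [h, sg]
          simp [hqi, h]
        · simp only [h, sg]
          simp [hpi, h]
      · have h0 : ¬ ((-1 : ℝ) = 1) := by norm_num
        cases c
        · simp only [h, sg, h0]
          simp [hpi, h]
        · simp only [h, sg, h0]
          simp [hqi, h]
    · intro i j hj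
      simp only [a]
      by_cases h : ε i = 1
      · simp [h, hoff i j hj]
      · simp [h, hoff i j hj]
  · -- the lower contacts are not sharp
    intro i hB
    have htrans : ∀ x : Fin n → ℝ, Bad ((fun x => A x + b) '' K) i (A x + b) →
        BadF K (G i) x := by
      intro x hx t ht h0
      have h1 := hx (A t) (TC_map A b K x t ht) (by rw [hA, h0, mul_zero])
      exact A.injective (by rw [h1, map_zero])
    by_cases h : BadF K (G i) (p i)
    · have hε1 : ε i = 1 := by simp only [ε]; rw [if_pos h]
      have ha : a i false = A (q i) + b := by simp [a, hε1]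
      rw [ha] at hB
      exact hbad i ⟨h, htrans _ hB⟩
    · have hε1 : ε i = -1 := by simp only [ε]; rw [if_neg h]
      have h0 : ¬ ((-1 : ℝ) = 1) := by norm_num
      have ha : a i false = A (p i) + b := by simp [a, hε1, h0]
      rw [ha] at hB
      exact h (htrans _ hB)

end Pool.Agent.Y512
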