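import Mathlib

set_option autoImplicit false

/-!
# Hamiltonian paths of the cube, coded by numbers

Vertices of the cube are numbers `n < 8`; bit `d` of `n` says whether the `d`-th coordinate
is `+1`. A `PDN` is a Hamiltonian path together with a direction `dj` at its first vertex and a
direction `dk` at its last vertex. Everything here is decidable and checked by evaluation.
-/

namespace Pool.Agent.Y512

structure PDN where
  path : List ℕ
  dj : ℕ
  dk : ℕ

namespace PDN

def pos (P : PDN) (n : ℕ) : ℕ := P.path.idxOf n

/-- direction of the edge to the predecessor (at the first vertex: `dj`) -/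
def pd (P : PDN) (n : ℕ) : ℕ :=
  if P.pos n = 0 then P.dj else Nat.log2 (P.path.getD (P.pos n - 1) 0 ^^^ n)

/-- direction of the edge to the successor (at the last vertex: `dk`) -/
def nd (P : PDN) (n : ℕ) : ℕ :=
  if P.pos n = 7 then P.dk else Nat.log2 (P.path.getD (P.pos n + 1) 0 ^^^ n)

def flip (n d : ℕ) : ℕ := n ^^^ (2 ^ d)

def third (P : PDN) (n d : ℕ) : Bool := d != P.pd n && d != P.nd n

def kindA (P : PDN) (n d : ℕ) : Bool :=
  P.nd n == d && P.pd (flip n d) == d && P.pos (flip n d) == P.pos n + 1

def kindB (P : PDN) (n d : ℕ) : Bool :=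
  P.pos n == 0 && P.pd n == d && P.third (flip n d) d

def kindC (P : PDN) (n d : ℕ) : Bool :=
  P.pos n == 7 && P.nd n == d && P.third (flip n d) d

def edges : List (ℕ × ℕ) :=
  [(0, 0), (2, 0), (4, 0), (6, 0), (0, 1), (1, 1), (4, 1), (5, 1), (0, 2), (1, 2), (2, 2), (3, 2)]

def extras (P : PDN) : List (ℕ × ℕ) :=
  edges.filter fun e => P.third e.1 e.2 && P.third (flip e.1 e.2) e.2

def okEdge (P : PDN) (n d : ℕ) : Bool :=
  P.kindA n d || P.kindA (flip n d) d || P.kindB n d || P.kindB (flip n d) d ||
    P.kindC n d || P.kindC (flip n d) d || P.extras.contains (n, d) ||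
    P.extras.contains (flip n d, d)

def okVert (P : PDN) (n : ℕ) : Bool :=
  decide (P.pos n ≤ 7) && decide (P.pd n < 3) && decide (P.nd n < 3) && P.pd n != P.nd n

def check (P : PDN) : Bool :=
  ((List.range 8).all fun n => P.okVert n && (List.range 3).all fun d => P.okEdge n d) &&
    decide (P.extras.length ≤ 3) &&
    (List.range 8).all fun n => (List.range 8).all fun m => P.pos n != P.pos m || n == m

end PDN

def testP : PDN := ⟨[4, 0, 1, 3, 2, 6, 7, 5], 1, 0⟩

example : testP.check = true := by decide

end Pool.Agent.Y512
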