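import Mathlib
import Pool.Agent.Y512.PathN
import Pool.Agent.Y512.Reduce

set_option autoImplicit false

/-!
# Corner boxes along a Hamiltonian path

At the `m`-th vertex of the path put a box with edge `1 - θ + (2m+1) ε` towards the predecessor,
`1 + θ - (2m+3) ε` towards the successor and `ε` in the third direction.
-/

namespace Pool.Agent.Y512

open Set

theorem check_vert {P : PDN} (hP : P.check = true) {n : ℕ} (hn : n < 8) :
    P.pos n ≤ 7 ∧ P.pd n < 3 ∧ P.nd n < 3 ∧ P.pd n ≠ P.nd n := by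
  simp only [PDN.check, Bool.and_eq_true, List.all_eq_true, List.mem_range] at hP
  have := (hP.1.1 n hn).1
  simp only [PDN.okVert, Bool.and_eq_true, decide_eq_true_eq, bne_iff_ne] at this
  tauto

theorem check_edge {P : PDN} (hP : P.check = true) {n d : ℕ} (hn : n < 8) (hd : d < 3) :
    P.okEdge n d = true := by
  simp only [PDN.check, Bool.and_eq_true, List.all_eq_true, List.mem_range] at hP
  exact (hP.1.1 n hn).2 d hd

theorem check_inj {P : PDN} (hP : P.check = true) {n m : ℕ} (hn : n < 8) (hm : m < 8)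
    (h : P.pos n = P.pos m) : n = m := by
  simp only [PDN.check, Bool.and_eq_true, List.all_eq_true, List.mem_range] at hP
  have := hP.2 n hn m hm
  simp only [Bool.or_eq_true, bne_iff_ne, beq_iff_eq] at this
  tauto

theorem check_extras {P : PDN} (hP : P.check = true) : P.extras.length ≤ 3 := by
  simp only [PDN.check, Bool.and_eq_true, decide_eq_true_eq] at hP
  exact hP.1.2

/-- vertices of the cube -/
abbrev Vx := Fin 3 → Bool

def code (v : Vx) : ℕ := (v 0).toNat + 2 * (v 1).toNat + 4 * (v 2).toNat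

def flipv (v : Vx) (d : Fin 3) : Vx := Function.update v d (!(v d))

theorem code_flip : ∀ (v : Vx) (d : Fin 3), code (flipv v d) = PDN.flip (code v) d := by decide

theorem code_inj : ∀ v w : Vx, code v = code w → v = w := by decide

theorem code_lt : ∀ v : Vx, code v < 8 := by decide

theorem flipv_flipv (v : Vx) (d : Fin 3) : flipv (flipv v d) d = v := by
  funext i
  by_cases h : i = d
  · subst h; simp [flipv]
  · simp [flipv, Function.update_of_ne h]

theorem sg_flipv_self (v : Vx) (d : Fin 3) : sg (flipv v d d) = -sg (v d) := by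
  simp only [flipv, Function.update_self, sg]
  cases v d <;> simp

theorem flipv_of_ne (v : Vx) {d i : Fin 3} (h : i ≠ d) : flipv v d i = v i := by
  simp [flipv, Function.update_of_ne h]

theorem flip_flip (v : Vx) (d : Fin 3) : PDN.flip (PDN.flip (code v) d) d = code v := by
  rw [← code_flip, ← code_flip, flipv_flipv]

/-- the edges of the corner box at `v` -/
noncomputable def len (P : PDN) (θ ε : ℝ) (v : Vx) (d : Fin 3) : ℝ :=
  if P.pd (code v) = d then 1 - θ + (2 * (P.pos (code v) : ℝ) + 1) * ε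
  else if P.nd (code v) = d then 1 + θ - (2 * (P.pos (code v) : ℝ) + 3) * ε
  else ε

def InCorner (P : PDN) (θ ε : ℝ) (v : Vx) (y : Fin 3 → ℝ) : Prop :=
  ∀ i, 1 - len P θ ε v i ≤ sg (v i) * y i ∧ sg (v i) * y i ≤ 1

theorem len_nonneg {P : PDN} (hP : P.check = true) {θ ε : ℝ} (hε : 0 < ε) (h1 : θ ≤ 1)
    (h2 : -1 + 17 * ε ≤ θ) (v : Vx) (d : Fin 3) : 0 ≤ len P θ ε v d := by
  have hpos := (check_vert hP (code_lt v)).1
  have hpos' : (P.pos (code v) : ℝ) ≤ 7 := by exact_mod_cast hpos
  have hpos0 : (0 : ℝ) ≤ P.pos (code v) := Nat.cast_nonneg _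
  unfold len
  split_ifs
  · nlinarith
  · nlinarith
  · exact hε.le

theorem len_sum {P : PDN} (hP : P.check = true) {θ ε : ℝ} (v : Vx) :
    ∑ d, len P θ ε v d = 2 - ε := by
  obtain ⟨_, hpd, hnd, hne⟩ := check_vert hP (code_lt v)
  rw [Fin.sum_univ_three]
  unfold len
  generalize P.pd (code v) = p at *
  generalize P.nd (code v) = q at *
  interval_cases p <;> interval_cases q <;> simp at hne ⊢ <;> ring

/-- the possible positions of a point of an edge -/
def Pos (P : PDN) (θ ε : ℝ) (y : Fin 3 → ℝ) : Prop :=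
  (∃ v, InCorner P θ ε v y) ∨
  (∃ (v : Vx) (d : Fin 3), (code v, (d : ℕ)) ∈ P.extras ∧ (∀ i, i ≠ d → y i = sg (v i)) ∧
    |y d| ≤ 1 - ε) ∨
  (∃ (v : Vx) (d : Fin 3), P.pos (code v) = 0 ∧ P.pd (code v) = d ∧
    (∀ i, i ≠ d → y i = sg (v i)) ∧ -1 + ε ≤ sg (v d) * y d ∧ sg (v d) * y d ≤ θ - ε) ∨
  (∃ (v : Vx) (d : Fin 3), P.pos (code v) = 7 ∧ P.nd (code v) = d ∧
    (∀ i, i ≠ d → y i = sg (v i)) ∧ -1 + ε ≤ sg (v d) * y d ∧ sg (v d) * y d ≤ -θ + 17 * ε)

theorem inCorner_of {P : PDN} (hP : P.check = true) {θ ε : ℝ} (hε : 0 < ε) (h1 : θ ≤ 1)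
    (h2 : -1 + 17 * ε ≤ θ) {v : Vx} {d : Fin 3} {y : Fin 3 → ℝ}
    (hy : ∀ i, i ≠ d → y i = sg (v i)) (hl : 1 - len P θ ε v d ≤ sg (v d) * y d)
    (hd : |y d| ≤ 1) : InCorner P θ ε v y := by
  intro i
  by_cases h : i = d
  · subst h
    refine ⟨hl, ?_⟩
    calc sg (v i) * y i ≤ |sg (v i) * y i| := le_abs_self _
      _ ≤ 1 := by rw [abs_mul, abs_sg, one_mul]; exact hd
  · rw [hy i h, sg_mul_sg]
    exact ⟨by linarith [len_nonneg hP hε h1 h2 v i], le_rfl⟩

theorem third_len {P : PDN} {θ ε : ℝ} {v : Vx} {d : Fin 3} (h : P.third (code v) d = true) :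
    len P θ ε v d = ε := by
  simp only [PDN.third, Bool.and_eq_true, bne_iff_ne] at h
  unfold len
  rw [if_neg (Ne.symm h.1), if_neg (Ne.symm h.2)]

theorem pos_core {P : PDN} (hP : P.check = true) {θ ε : ℝ} (hε : 0 < ε) (h1 : θ ≤ 1)
    (h2 : -1 + 17 * ε ≤ θ) {v : Vx} {d : Fin 3} {y : Fin 3 → ℝ}
    (hy : ∀ i, i ≠ d → y i = sg (v i)) (hd : |y d| ≤ 1)
    (hk : P.kindA (code v) d = true ∨ P.kindB (code v) d = true ∨ P.kindC (code v) d = true ∨
      P.extras.contains (code v, (d : ℕ)) = true) : Pos P θ ε y := by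
  set w := flipv v d with hw
  have hyw : ∀ i, i ≠ d → y i = sg (w i) := by
    intro i hi
    rw [hw, flipv_of_ne v hi, hy i hi]
  have hsw : sg (w d) = -sg (v d) := sg_flipv_self v d
  have hcw : code w = PDN.flip (code v) d := code_flip v d
  have cornerv : 1 - len P θ ε v d ≤ sg (v d) * y d → Pos P θ ε y := fun h =>
    Or.inl ⟨v, inCorner_of hP hε h1 h2 hy h hd⟩
  have cornerw : 1 - len P θ ε w d ≤ -(sg (v d) * y d) → Pos P θ ε y := fun h =>
    Or.inl ⟨w, inCorner_of hP hε h1 h2 hyw (by rw [hsw]; linarith) hd⟩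
  have hwt : P.third (PDN.flip (code v) d) d = true → len P θ ε w d = ε := by
    intro h
    apply third_len
    rw [hcw]
    exact h
  rcases hk with hk | hk | hk | hk
  · simp only [PDN.kindA, Bool.and_eq_true, beq_iff_eq] at hk
    obtain ⟨⟨hn, hp⟩, hpos⟩ := hk
    have hlv : len P θ ε v d = 1 + θ - (2 * (P.pos (code v) : ℝ) + 3) * ε := by
      have hne := (check_vert hP (code_lt v)).2.2.2
      unfold len
      rw [if_neg (by rw [← hn]; exact hne), if_pos hn]
    have hlw : len P θ ε w d = 1 - θ + (2 * (P.pos (code v) : ℝ) + 3) * ε := by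
      unfold len
      rw [hcw, if_pos hp, hpos]
      push_cast
      ring
    by_cases h : 1 - len P θ ε v d ≤ sg (v d) * y d
    · exact cornerv h
    · apply cornerw
      push Not at h
      rw [hlv] at h
      rw [hlw]
      linarith
  · simp only [PDN.kindB, Bool.and_eq_true, beq_iff_eq] at hk
    obtain ⟨⟨hpos, hp⟩, ht⟩ := hk
    have hlv : len P θ ε v d = 1 - θ + ε := by
      unfold len
      rw [if_pos hp, hpos]
      push_cast
      ring
    by_cases h : 1 - len P θ ε v d ≤ sg (v d) * y d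
    · exact cornerv h
    · by_cases h' : 1 - len P θ ε w d ≤ -(sg (v d) * y d)
      · exact cornerw h'
      · push Not at h h'
        rw [hlv] at h
        rw [hwt ht] at h'
        exact Or.inr (Or.inr (Or.inl ⟨v, d, hpos, hp, hy, by linarith, by linarith⟩))
  · simp only [PDN.kindC, Bool.and_eq_true, beq_iff_eq] at hk
    obtain ⟨⟨hpos, hn⟩, ht⟩ := hk
    have hlv : len P θ ε v d = 1 + θ - 17 * ε := by
      have hne := (check_vert hP (code_lt v)).2.2.2
      unfold len
      rw [if_neg (by rw [← hn]; exact hne), if_pos hn, hpos]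
      push_cast
      ring
    by_cases h : 1 - len P θ ε v d ≤ sg (v d) * y d
    · exact cornerv h
    · by_cases h' : 1 - len P θ ε w d ≤ -(sg (v d) * y d)
      · exact cornerw h'
      · push Not at h h'
        rw [hlv] at h
        rw [hwt ht] at h'
        exact Or.inr (Or.inr (Or.inr ⟨v, d, hpos, hn, hy, by linarith, by linarith⟩))
  · have hmem : (code v, (d : ℕ)) ∈ P.extras := by simpa using hk
    have ht : P.third (code v) d = true ∧ P.third (PDN.flip (code v) d) d = true := by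
      have := hmem
      simp only [PDN.extras, List.mem_filter, Bool.and_eq_true] at this
      exact this.2
    by_cases h : 1 - len P θ ε v d ≤ sg (v d) * y d
    · exact cornerv h
    · by_cases h' : 1 - len P θ ε w d ≤ -(sg (v d) * y d)
      · exact cornerw h'
      · push Not at h h'
        rw [third_len ht.1] at h
        rw [hwt ht.2] at h'
        refine Or.inr (Or.inl ⟨v, d, hmem, hy, ?_⟩)
        have : |sg (v d) * y d| ≤ 1 - ε := abs_le.2 ⟨by linarith, h.le⟩
        rwa [abs_mul, abs_sg, one_mul] at this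

theorem fin3_third : ∀ i j : Fin 3, i ≠ j → ∃ d : Fin 3, ∀ k, k ≠ d → k = i ∨ k = j := by
  decide

theorem path_pos {P : PDN} (hP : P.check = true) {θ ε : ℝ} (hε : 0 < ε) (h1 : θ ≤ 1)
    (h2 : -1 + 17 * ε ≤ θ) {y : Fin 3 → ℝ} (hy : y ∈ Skel 3) : Pos P θ ε y := by
  obtain ⟨hall, i, j, hij, hi, hj⟩ := hy
  obtain ⟨bi, hbi⟩ := eq_sg_of_abs hi
  obtain ⟨bj, hbj⟩ := eq_sg_of_abs hj
  -- the vertex and the direction
  obtain ⟨v, d, hvd⟩ : ∃ (v : Vx) (d : Fin 3), ∀ k, k ≠ d → y k = sg (v k) := by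
    obtain ⟨d, hd⟩ := fin3_third i j hij
    refine ⟨Function.update (Function.update (fun _ => true) i bi) j bj, d, fun k hk => ?_⟩
    rcases hd k hk with rfl | rfl
    · rw [Function.update_of_ne hij, Function.update_self, hbi]
    · rw [Function.update_self, hbj]
  have hd := hall d
  have he := check_edge hP (code_lt v) d.2
  simp only [PDN.okEdge, Bool.or_eq_true] at he
  have hvd' : ∀ k, k ≠ d → y k = sg (flipv v d k) := by
    intro k hk
    rw [flipv_of_ne v hk, hvd k hk]
  have c := pos_core hP hε h1 h2 hvd hd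
  have c' := pos_core hP hε h1 h2 hvd' hd
  rw [code_flip] at c'
  rcases he with ((((((he | he) | he) | he) | he) | he) | he) | he
  · exact c (Or.inl he)
  · exact c' (Or.inl he)
  · exact c (Or.inr (Or.inl he))
  · exact c' (Or.inr (Or.inl he))
  · exact c (Or.inr (Or.inr (Or.inl he)))
  · exact c' (Or.inr (Or.inr (Or.inl he)))
  · exact c (Or.inr (Or.inr (Or.inr he)))
  · exact c' (Or.inr (Or.inr (Or.inr he)))

end Pool.Agent.Y512
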