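import Mathlib
import Pool.Agent.Y512.PathR

set_option autoImplicit false

/-!
# Thirteen boxes from a Hamiltonian path
-/

namespace Pool.Agent.Y512

open Set

/-- a box given in the coordinates reflected by the signs of a vertex -/
abbrev SBox := Vx × (Fin 3 → ℝ) × (Fin 3 → ℝ)

def SBox.has (b : SBox) (y : Fin 3 → ℝ) : Prop :=
  ∀ i, b.2.1 i ≤ sg (b.1 i) * y i ∧ sg (b.1 i) * y i ≤ b.2.2 i

def SBox.ok (b : SBox) : Prop := (∀ i, b.2.1 i ≤ b.2.2 i) ∧ ∑ i, (b.2.2 i - b.2.1 i) < 2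

/-- the skeleton of the cube and the three points `c i` are covered by 13 small boxes -/
def BoxCov (c : Fin 3 → Fin 3 → ℝ) : Prop :=
  ∃ L : List SBox, L.length ≤ 13 ∧ (∀ b ∈ L, b.ok) ∧ (∀ y ∈ Skel 3, ∃ b ∈ L, b.has y) ∧
    ∀ i, ∃ b ∈ L, b.has (c i)

theorem sbox_lit {K : Set (Fin 3 → ℝ)} {a : Fin 3 → Bool → Fin 3 → ℝ} (h : NF K a)
    {b : SBox} (hb : b.ok) : ∃ t : Fin 3 → ℝ, ∀ y, b.has y → Lit K t y := by
  obtain ⟨t, ht⟩ := box_fits (by norm_num) h.conv h.chords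
    (fun i => sg (b.1 i) * ((b.2.1 i + b.2.2 i) / 2)) (fun i => (b.2.2 i - b.2.1 i) / 2)
    (fun i => by have := hb.1 i; linarith) (by
      have := hb.2
      rw [← Finset.sum_div]
      linarith)
  refine ⟨t, fun y hy => ⟨1, one_pos, ?_⟩⟩
  rw [one_smul]
  apply ht
  intro i
  have h1 := hy i
  have h2 : sg (b.1 i) * (sg (b.1 i) * y i - (b.2.1 i + b.2.2 i) / 2) =
      y i - sg (b.1 i) * ((b.2.1 i + b.2.2 i) / 2) := by
    have := sg_mul_sg (b.1 i)
    linear_combination (y i) * this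
  rw [← h2, abs_mul, abs_sg, one_mul, abs_le]
  constructor <;> linarith [h1.1, h1.2]

theorem covN_of_boxCov {K : Set (Fin 3 → ℝ)} {a : Fin 3 → Bool → Fin 3 → ℝ} (h : NF K a)
    (hc : BoxCov fun i => a i true) : CovN 13 K := by
  classical
  obtain ⟨L, hL, hok, hsk, hco⟩ := hc
  have key : ∀ b ∈ L, ∃ t : Fin 3 → ℝ, ∀ y, b.has y → Lit K t y :=
    fun b hb => sbox_lit h (hok b hb)
  choose! t ht using key
  refine covN_of_lit (by norm_num) h 13 (L.map t).toFinset ?_ ?_ ?_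
  · refine (List.toFinset_card_le _).trans ?_
    rw [List.length_map]
    exact hL
  · intro y hy
    obtain ⟨b, hb, hby⟩ := hsk y hy
    exact ⟨t b, List.mem_toFinset.2 (List.mem_map_of_mem hb), ht b hb y hby⟩
  · intro i
    obtain ⟨b, hb, hby⟩ := hco i
    exact ⟨t b, List.mem_toFinset.2 (List.mem_map_of_mem hb), ht b hb _ hby⟩

/-- the box that covers a contact point and more than half of the nearest edge -/
theorem ded_box (c : Fin 3 → ℝ) (v : Vx) (j d g : Fin 3) (hjd : j ≠ d) (hjg : j ≠ g)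
    (hdg : d ≠ g) (hv : v j = true) (hcj : c j = 1) (hr : |c d| ≤ sg (v g) * c g)
    (hr1 : sg (v g) * c g ≤ 1) {ε : ℝ} (hε : 0 < ε) (hε2 : ε ≤ 1 / 2) :
    ∃ b : SBox, b.ok ∧ b.has c ∧ ∀ y : Fin 3 → ℝ, (∀ i, i ≠ d → y i = sg (v i)) →
      -1 + ε ≤ sg (v d) * y d → sg (v d) * y d ≤ sg (v g) * c g - ε → b.has y := by
  set r := sg (v g) * c g with hrdef
  have hr0 : 0 ≤ r := (abs_nonneg _).trans hr
  set x := sg (v d) * c d with hx
  have hxr : |x| ≤ r := by rw [hx, abs_mul, abs_sg, one_mul]; exact hr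
  have hx1 := (abs_le.1 hxr).1
  have hx2 := (abs_le.1 hxr).2
  obtain ⟨lo, hlo1, hlo2, hlo3, hlo4⟩ : ∃ lo : ℝ, -1 ≤ lo ∧ lo ≤ -1 + ε ∧ lo ≤ x ∧
      x ≤ lo + (1 + r - ε) := by
    by_cases h : x ≤ r - ε
    · exact ⟨-1, le_rfl, by linarith, by linarith, by linarith⟩
    · push Not at h
      exact ⟨-1 + ε, by linarith, le_rfl, by linarith, by linarith⟩
  have hall : ∀ i : Fin 3, i = j ∨ i = d ∨ i = g := by
    revert hjd hjg hdg
    clear * -
    revert j d g
    decide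
  let lof : Fin 3 → ℝ := fun i => if i = d then lo else if i = g then r else 1
  let hif : Fin 3 → ℝ := fun i => if i = d then lo + (1 + r - ε) else 1
  have lod : lof d = lo := by simp [lof]
  have log : lof g = r := by simp [lof, hdg.symm]
  have loj : lof j = 1 := by simp [lof, hjd, hjg]
  have hid : hif d = lo + (1 + r - ε) := by simp [hif]
  have hig : hif g = 1 := by simp [hif, hdg.symm]
  have hij : hif j = 1 := by simp [hif, hjd]
  have sgj : sg (v j) = 1 := by simp [hv, sg]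
  refine ⟨(v, lof, hif), ⟨?_, ?_⟩, ?_, ?_⟩
  · intro i
    change lof i ≤ hif i
    rcases hall i with rfl | rfl | rfl
    · rw [loj, hij]
    · rw [lod, hid]; linarith
    · rw [log, hig]; exact hr1
  · change ∑ i, (hif i - lof i) < 2
    have : ∑ i, (hif i - lof i) = (hif j - lof j) + (hif d - lof d) + (hif g - lof g) := by
      have huniv : (Finset.univ : Finset (Fin 3)) = {j, d, g} := by
        ext i; simpa using hall i
      rw [huniv, Finset.sum_insert (by simp [hjd, hjg]), Finset.sum_insert (by simp [hdg]),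
        Finset.sum_singleton]
      ring
    rw [this, lod, log, loj, hid, hig, hij]
    linarith
  · intro i
    change lof i ≤ sg (v i) * c i ∧ sg (v i) * c i ≤ hif i
    rcases hall i with rfl | rfl | rfl
    · rw [loj, hij, sgj, hcj]; norm_num
    · rw [lod, hid]; exact ⟨hlo3, hlo4⟩
    · rw [log, hig]; exact ⟨le_rfl, hr1⟩
  · intro y hy h1 h2 i
    change lof i ≤ sg (v i) * y i ∧ sg (v i) * y i ≤ hif i
    rcases hall i with rfl | rfl | rfl
    · rw [loj, hij, hy i hjd, sg_mul_sg]; norm_num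
    · rw [lod, hid]; exact ⟨by linarith, by linarith⟩
    · rw [log, hig, hy i hdg.symm, sg_mul_sg]; exact ⟨hr1, le_rfl⟩

def dec (n : ℕ) : Vx := fun i => n.testBit i

theorem dec_code : ∀ v : Vx, dec (code v) = v := by decide

/-- the corner box -/
noncomputable def cornerB (P : PDN) (θ ε : ℝ) (v : Vx) : SBox :=
  (v, fun i => 1 - len P θ ε v i, fun _ => 1)

/-- the box along an edge -/
noncomputable def edgeB (ε : ℝ) (e : ℕ × ℕ) : SBox :=
  (dec e.1, fun i => if (i : ℕ) = e.2 then -1 + ε else 1,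
    fun i => if (i : ℕ) = e.2 then 1 - ε else 1)

theorem cornerB_ok {P : PDN} (hP : P.check = true) {θ ε : ℝ} (hε : 0 < ε) (h1 : θ ≤ 1)
    (h2 : -1 + 17 * ε ≤ θ) (v : Vx) : (cornerB P θ ε v).ok := by
  constructor
  · intro i
    have := len_nonneg hP hε h1 h2 v i
    change 1 - len P θ ε v i ≤ 1
    linarith
  · change ∑ i, (1 - (1 - len P θ ε v i)) < 2
    simp only [sub_sub_cancel]
    rw [len_sum hP]
    linarith

theorem edgeB_ok {ε : ℝ} (hε : 0 < ε) (hε1 : ε ≤ 1) (e : ℕ × ℕ) (he : e.2 < 3) :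
    (edgeB ε e).ok := by
  obtain ⟨n, d⟩ := e
  change d < 3 at he
  constructor
  · intro i
    simp only [edgeB]
    split_ifs <;> linarith
  · simp only [edgeB]
    rw [Fin.sum_univ_three]
    interval_cases d <;> simp <;> linarith

theorem extras_lt {P : PDN} {e : ℕ × ℕ} (he : e ∈ P.extras) : e.2 < 3 := by
  have h1 : e ∈ PDN.edges := (List.mem_filter.1 he).1
  have h2 : ∀ e ∈ PDN.edges, e.2 < 3 := by decide
  exact h2 e h1

theorem edgeB_has {ε : ℝ} {v : Vx} {d : Fin 3} {y : Fin 3 → ℝ}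
    (hy : ∀ i, i ≠ d → y i = sg (v i)) (hd : |y d| ≤ 1 - ε) :
    (edgeB ε (code v, (d : ℕ))).has y := by
  intro i
  simp only [edgeB, dec_code]
  by_cases h : i = d
  · subst h
    have h1 : |sg (v i) * y i| ≤ 1 - ε := by rw [abs_mul, abs_sg, one_mul]; exact hd
    rw [if_pos rfl, if_pos rfl]
    exact ⟨by linarith [(abs_le.1 h1).1], (abs_le.1 h1).2⟩
  · have h' : ¬ ((i : ℕ) = (d : ℕ)) := fun h0 => h (Fin.ext h0)
    rw [if_neg h', if_neg h', hy i h, sg_mul_sg]
    exact ⟨le_rfl, le_rfl⟩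

def vlist : List Vx := (List.range 8).map dec

theorem mem_vlist (v : Vx) : v ∈ vlist := by
  refine List.mem_map.2 ⟨code v, List.mem_range.2 (code_lt v), dec_code v⟩

theorem corner_contact {P : PDN} (hP : P.check = true) {θ ε : ℝ} (hε : 0 < ε) (h1 : θ ≤ 1)
    (h2 : -1 + 17 * ε ≤ θ) {c : Fin 3 → ℝ} {i : Fin 3} {v : Vx} (hci : c i = 1)
    (hcb : ∀ d, |c d| ≤ 1) (hvi : v i = true) (hpi : P.pd (code v) ≠ i)
    (hni : P.nd (code v) ≠ i) {α β : ℝ}
    (hα : ∀ d : Fin 3, P.pd (code v) = d → α = sg (v d) * c d)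
    (hβ : ∀ d : Fin 3, P.nd (code v) = d → β = sg (v d) * c d)
    (hθα : θ ≤ α) (hθβ : 17 * ε ≤ θ + β) : (cornerB P θ ε v).has c := by
  intro d
  change 1 - len P θ ε v d ≤ sg (v d) * c d ∧ sg (v d) * c d ≤ 1
  have hle : sg (v d) * c d ≤ 1 := by
    calc sg (v d) * c d ≤ |sg (v d) * c d| := le_abs_self _
      _ ≤ 1 := by rw [abs_mul, abs_sg, one_mul]; exact hcb d
  refine ⟨?_, hle⟩
  obtain ⟨hpos, hpd3, hnd3, hne⟩ := check_vert hP (code_lt v)
  have hpos' : (P.pos (code v) : ℝ) ≤ 7 := by exact_mod_cast hpos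
  have hpos0 : (0 : ℝ) ≤ P.pos (code v) := Nat.cast_nonneg _
  by_cases hdi : d = i
  · subst hdi
    rw [hci, hvi]
    have := len_nonneg hP hε h1 h2 v d
    simp only [sg, if_true]
    linarith
  · by_cases hpd : P.pd (code v) = d
    · unfold len
      rw [if_pos hpd, ← hα d hpd]
      nlinarith
    · have hnd : P.nd (code v) = d := by
        have h3 := d.2
        have h4 := i.2
        have h5 : (d : ℕ) ≠ i := fun h => hdi (Fin.ext h)
        omega
      unfold len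
      rw [if_neg hpd, if_pos hnd, ← hβ d hnd]
      nlinarith

theorem path_cover {P : PDN} (hP : P.check = true) (c : Fin 3 → Fin 3 → ℝ)
    (hc1 : ∀ i, c i i = 1) (hcb : ∀ i j, |c i j| ≤ 1) (i j k : Fin 3)
    (hall : ∀ m, m = i ∨ m = j ∨ m = k)
    (vi v0 v7 : Vx) (hvi : vi i = true) (hpi : P.pd (code vi) ≠ i) (hni : P.nd (code vi) ≠ i)
    {α β : ℝ} (hα : ∀ d : Fin 3, P.pd (code vi) = d → α = sg (vi d) * c i d)
    (hβ : ∀ d : Fin 3, P.nd (code vi) = d → β = sg (vi d) * c i d)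
    (hα0 : 0 ≤ α) (hβ0 : 0 ≤ β)
    (h0 : P.pos (code v0) = 0) (hv0 : v0 j = true) (dj gj : Fin 3) (hdj : P.pd (code v0) = dj)
    (hj1 : j ≠ dj) (hj2 : j ≠ gj) (hj3 : dj ≠ gj) (hrj : |c j dj| ≤ sg (v0 gj) * c j gj)
    (h7 : P.pos (code v7) = 7) (hv7 : v7 k = true) (dk gk : Fin 3) (hdk : P.nd (code v7) = dk)
    (hk1 : k ≠ dk) (hk2 : k ≠ gk) (hk3 : dk ≠ gk) (hrk : |c k dk| ≤ sg (v7 gk) * c k gk)
    (hαβ : 0 < α + β) (hrr : 0 < sg (v0 gj) * c j gj + sg (v7 gk) * c k gk)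
    (hβj : 0 < β + sg (v0 gj) * c j gj) (hαk : 0 < α + sg (v7 gk) * c k gk) : BoxCov c := by
  set rj := sg (v0 gj) * c j gj with hrjdef
  set rk := sg (v7 gk) * c k gk with hrkdef
  have hsgle : ∀ (v : Vx) (m d : Fin 3), sg (v d) * c m d ≤ 1 := by
    intro v m d
    calc sg (v d) * c m d ≤ |sg (v d) * c m d| := le_abs_self _
      _ ≤ 1 := by rw [abs_mul, abs_sg, one_mul]; exact hcb m d
  have hrj0 : 0 ≤ rj := (abs_nonneg _).trans hrj
  have hrk0 : 0 ≤ rk := (abs_nonneg _).trans hrk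
  have hrj1 : rj ≤ 1 := hsgle _ _ _
  have hrk1 : rk ≤ 1 := hsgle _ _ _
  have hα1 : α ≤ 1 := by
    have h := (check_vert hP (code_lt vi)).2.1
    rw [hα ⟨P.pd (code vi), h⟩ rfl]
    exact hsgle _ _ _
  have hβ1 : β ≤ 1 := by
    have h := (check_vert hP (code_lt vi)).2.2.1
    rw [hβ ⟨P.nd (code vi), h⟩ rfl]
    exact hsgle _ _ _
  set U := min α rj with hU
  set W := min β rk with hW
  have hU1 : U ≤ α := min_le_left _ _
  have hU2 : U ≤ rj := min_le_right _ _
  have hW1 : W ≤ β := min_le_left _ _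
  have hW2 : W ≤ rk := min_le_right _ _
  have hUW : 0 < U + W := by
    rcases min_choice α rj with h | h <;> rcases min_choice β rk with h' | h' <;>
      rw [hU, hW, h, h'] <;> linarith
  have hU0 : 0 ≤ U := le_min hα0 hrj0
  have hW0 : 0 ≤ W := le_min hβ0 hrk0
  set ε := (U + W) / 18 with hεdef
  have hε : 0 < ε := by positivity
  have hε2 : ε ≤ 1 / 2 := by rw [hεdef]; linarith
  have h1 : U ≤ 1 := by linarith
  have h2 : -1 + 17 * ε ≤ U := by rw [hεdef]; linarith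
  obtain ⟨bj, hbj1, hbj2, hbj3⟩ := ded_box (c j) v0 j dj gj hj1 hj2 hj3 hv0 (hc1 j) hrj hrj1
    hε hε2
  obtain ⟨bk, hbk1, hbk2, hbk3⟩ := ded_box (c k) v7 k dk gk hk1 hk2 hk3 hv7 (hc1 k) hrk hrk1
    hε hε2
  refine ⟨vlist.map (cornerB P U ε) ++ P.extras.map (edgeB ε) ++ [bj, bk], ?_, ?_, ?_, ?_⟩
  · have := check_extras hP
    simp only [List.length_append, List.length_map, vlist, List.length_range, List.length_cons,
      List.length_nil]
    omega
  · intro b hb
    simp only [List.mem_append, List.mem_map, List.mem_cons, List.not_mem_nil, or_false] at hb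
    rcases hb with (⟨v, _, rfl⟩ | ⟨e, he, rfl⟩) | rfl | rfl
    · exact cornerB_ok hP hε h1 h2 v
    · exact edgeB_ok hε (by linarith) e (extras_lt he)
    · exact hbj1
    · exact hbk1
  · intro y hy
    rcases path_pos hP hε h1 h2 hy with ⟨v, hv⟩ | ⟨v, d, hvd, hyi, hyd⟩ |
      ⟨v, d, hpos, hpd, hyi, hy1, hy2⟩ | ⟨v, d, hpos, hnd, hyi, hy1, hy2⟩
    · refine ⟨cornerB P U ε v, ?_, hv⟩
      simp only [List.mem_append, List.mem_map]
      exact Or.inl (Or.inl ⟨v, mem_vlist v, rfl⟩)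
    · refine ⟨edgeB ε (code v, (d : ℕ)), ?_, edgeB_has hyi hyd⟩
      simp only [List.mem_append, List.mem_map]
      exact Or.inl (Or.inr ⟨_, hvd, rfl⟩)
    · have hv : v = v0 := code_inj _ _ (check_inj hP (code_lt v) (code_lt v0) (by
        rw [hpos, h0]))
      subst hv
      have hdd : d = dj := Fin.ext (by rw [← hpd, hdj])
      subst hdd
      exact ⟨bj, by simp, hbj3 y hyi hy1 (by linarith)⟩
    · have hv : v = v7 := code_inj _ _ (check_inj hP (code_lt v) (code_lt v7) (by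
        rw [hpos, h7]))
      subst hv
      have hdd : d = dk := Fin.ext (by rw [← hnd, hdk])
      subst hdd
      refine ⟨bk, by simp, hbk3 y hyi hy1 ?_⟩
      have : 18 * ε = U + W := by rw [hεdef]; ring
      linarith
  · intro m
    rcases hall m with rfl | rfl | rfl
    · refine ⟨cornerB P U ε vi, ?_, ?_⟩
      · simp only [List.mem_append, List.mem_map]
        exact Or.inl (Or.inl ⟨vi, mem_vlist vi, rfl⟩)
      · apply corner_contact hP hε h1 h2 (hc1 m) (hcb m) hvi hpi hni hα hβ hU1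
        have : 18 * ε = U + W := by rw [hεdef]; ring
        linarith
    · exact ⟨bj, by simp, hbj2⟩
    · exact ⟨bk, by simp, hbk2⟩

end Pool.Agent.Y512
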