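import Mathlib
import Pool.Agent.Y512.PathR

set_option autoImplicit false

/-!
# Tables of Hamiltonian paths
-/

namespace Pool.Agent.Y512

def pdl : List PDN := [
  ⟨[6, 2, 3, 7, 5, 4, 0, 1], 0, 2⟩,
  ⟨[4, 0, 1, 5, 7, 6, 2, 3], 0, 2⟩,
  ⟨[4, 0, 1, 5, 7, 6, 2, 3], 1, 2⟩,
  ⟨[5, 4, 0, 1, 3, 2, 6, 7], 1, 2⟩,
  ⟨[7, 3, 2, 6, 4, 0, 1, 5], 0, 1⟩,
  ⟨[1, 0, 4, 5, 7, 3, 2, 6], 1, 0⟩,
  ⟨[2, 0, 1, 3, 7, 6, 4, 5], 0, 1⟩,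
  ⟨[2, 0, 1, 3, 7, 6, 4, 5], 2, 1⟩,
  ⟨[7, 5, 4, 0, 1, 3, 2, 6], 2, 0⟩,
  ⟨[7, 6, 2, 0, 4, 5, 1, 3], 1, 2⟩,
  ⟨[5, 7, 3, 2, 6, 4, 0, 1], 0, 1⟩,
  ⟨[6, 4, 5, 1, 0, 2, 3, 7], 0, 1⟩,
  ⟨[4, 0, 1, 3, 2, 6, 7, 5], 1, 2⟩,
  ⟨[4, 5, 1, 0, 2, 6, 7, 3], 1, 1⟩,
  ⟨[6, 2, 3, 7, 5, 4, 0, 1], 1, 1⟩,
  ⟨[4, 0, 1, 3, 2, 6, 7, 5], 0, 2⟩,
  ⟨[5, 1, 3, 2, 0, 4, 6, 7], 0, 2⟩,
  ⟨[5, 1, 3, 7, 6, 4, 0, 2], 1, 0⟩,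
  ⟨[2, 0, 4, 6, 7, 3, 1, 5], 2, 1⟩,
  ⟨[5, 4, 6, 2, 0, 1, 3, 7], 2, 0⟩,
  ⟨[7, 6, 4, 5, 1, 0, 2, 3], 1, 2⟩,
  ⟨[3, 1, 0, 2, 6, 4, 5, 7], 2, 0⟩,
  ⟨[7, 3, 1, 5, 4, 0, 2, 6], 1, 0⟩,
  ⟨[3, 2, 6, 7, 5, 1, 0, 4], 1, 0⟩,
  ⟨[6, 2, 3, 7, 5, 4, 0, 1], 1, 2⟩,
  ⟨[6, 4, 0, 2, 3, 1, 5, 7], 0, 2⟩,
  ⟨[4, 0, 1, 5, 7, 3, 2, 6], 0, 0⟩,
  ⟨[7, 5, 1, 0, 4, 6, 2, 3], 0, 2⟩,
  ⟨[1, 0, 2, 3, 7, 5, 4, 6], 1, 0⟩,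
  ⟨[3, 1, 5, 7, 6, 2, 0, 4], 0, 0⟩,
  ⟨[3, 2, 6, 7, 5, 4, 0, 1], 2, 2⟩,
  ⟨[4, 0, 2, 6, 7, 5, 1, 3], 1, 2⟩,
  ⟨[7, 5, 1, 0, 4, 6, 2, 3], 0, 1⟩,
  ⟨[6, 4, 5, 7, 3, 2, 0, 1], 0, 2⟩,
  ⟨[7, 5, 4, 0, 1, 3, 2, 6], 2, 1⟩,
  ⟨[3, 1, 5, 4, 0, 2, 6, 7], 0, 1⟩,
  ⟨[6, 4, 5, 1, 0, 2, 3, 7], 2, 1⟩,
  ⟨[3, 1, 5, 7, 6, 2, 0, 4], 2, 0⟩]
/-- table of the 512 types without a centred contact; entry `6 * a + q` -/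
def tabT : List (List ℕ) := [
  [63, 87, 32, 87, 63, 103, 32, 103, 63, 87, 32, 87, 63, 108, 32, 108, 140, 81, 32, 81, 34, 34,
    32, 133, 140, 81, 32, 81, 140, 108, 32, 108, 63, 87, 32, 87, 63, 103, 32, 103, 63, 87, 32, 87,
    63, 55, 32, 55, 172, 81, 172, 81, 34, 34, 197, 133, 97, 81, 151, 81, 97, 55, 151, 55],
  [93, 75, 3, 75, 93, 103, 3, 103, 93, 75, 3, 75, 93, 108, 3, 108, 93, 75, 3, 75, 5, 5, 3, 133,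
    93, 75, 3, 75, 93, 108, 3, 108, 174, 147, 3, 147, 174, 103, 3, 103, 97, 147, 3, 147, 97, 55, 3,
    55, 118, 118, 116, 203, 5, 5, 116, 133, 97, 187, 116, 187, 97, 55, 116, 55],
  [41, 41, 27, 41, 41, 41, 27, 103, 47, 47, 27, 47, 47, 47, 27, 108, 71, 71, 71, 71, 157, 24,
    134, 24, 47, 47, 47, 47, 47, 47, 134, 108, 41, 41, 27, 41, 41, 41, 27, 103, 7, 13, 27, 13, 7,
    22, 27, 58, 71, 71, 27, 71, 157, 24, 27, 24, 7, 13, 27, 13, 7, 22, 27, 58],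
  [93, 75, 3, 75, 93, 103, 3, 103, 93, 75, 3, 75, 93, 108, 3, 108, 93, 75, 3, 75, 5, 5, 3, 24,
    93, 75, 3, 75, 93, 108, 3, 108, 174, 147, 3, 147, 174, 103, 3, 103, 7, 13, 3, 13, 7, 185, 3,
    185, 118, 118, 116, 203, 5, 5, 116, 24, 7, 13, 116, 13, 7, 185, 116, 185],
  [63, 87, 32, 87, 63, 36, 32, 36, 63, 87, 32, 87, 63, 42, 32, 42, 140, 81, 32, 81, 34, 34, 32,
    133, 140, 81, 32, 81, 140, 42, 32, 42, 63, 87, 32, 87, 63, 36, 32, 36, 63, 87, 32, 87, 63, 55,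
    32, 55, 172, 81, 172, 81, 34, 34, 197, 133, 222, 81, 126, 81, 222, 55, 126, 55],
  [9, 15, 50, 15, 9, 21, 50, 21, 9, 15, 50, 15, 9, 21, 50, 21, 9, 15, 50, 15, 9, 21, 50, 21, 9,
    15, 50, 15, 9, 21, 50, 21, 9, 15, 165, 15, 9, 36, 165, 36, 9, 15, 126, 15, 9, 55, 126, 55, 99,
    130, 155, 155, 52, 21, 130, 21, 99, 187, 126, 187, 99, 21, 126, 21],
  [41, 41, 27, 41, 41, 41, 27, 215, 47, 47, 27, 47, 47, 47, 27, 216, 71, 71, 71, 71, 157, 66,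
    134, 66, 47, 47, 47, 47, 47, 47, 134, 216, 41, 41, 27, 41, 41, 41, 27, 215, 124, 124, 27, 124,
    22, 22, 27, 58, 71, 71, 27, 71, 157, 66, 27, 66, 124, 124, 27, 124, 22, 22, 27, 58],
  [9, 15, 50, 15, 9, 21, 50, 21, 9, 15, 50, 15, 9, 21, 50, 21, 9, 15, 50, 15, 9, 21, 50, 21, 9,
    15, 50, 15, 9, 21, 50, 21, 9, 15, 165, 15, 9, 123, 165, 123, 9, 15, 48, 15, 9, 123, 48, 123, 99,
    130, 155, 155, 52, 21, 130, 21, 99, 204, 48, 204, 99, 21, 48, 21]]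
def tabC : List ℕ := [10, 12, 4, 12, 10, 3, 4, 3, 1, 2, 0, 2, 1, 9, 0, 9, 1, 2, 0, 2, 1, 20, 0,
    20, 16, 13, 4, 13, 16, 3, 4, 3]
def tabE : List ℕ := [1, 0, 15]

def P0 : PDN := ⟨[6, 2, 3, 7, 5, 4, 0, 1], 0, 2⟩

def getP (a : ℕ) : PDN := pdl.getD a P0

theorem pdl_ok : ∀ P ∈ pdl, P.check = true := by decide

theorem getP_ok (a : ℕ) : (getP a).check = true := by
  unfold getP
  rw [List.getD_eq_getElem?_getD]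
  rcases h : pdl[a]? with _ | P
  · simp only [Option.getD_none]
    decide
  · simp only [Option.getD_some]
    exact pdl_ok P (List.mem_of_getElem? h)

/-- the corner with signs `x, y` in the two directions different from `i` -/
def mk (i : Fin 3) (x y : Bool) : Vx :=
  match i with
  | 0 => ![true, x, y]
  | 1 => ![x, true, y]
  | 2 => ![x, y, true]

/-- one of the two directions different from `i` -/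
def mo (i : Fin 3) (b : Bool) : Fin 3 :=
  match i with
  | 0 => if b then 2 else 1
  | 1 => if b then 2 else 0
  | 2 => if b then 1 else 0

def chkJ (P : PDN) (n o : ℕ) : Bool :=
  (P.pos n == 0 && P.pd n == o) || (P.pos (PDN.flip n o) == 0 && P.pd (PDN.flip n o) == o)

def chkK (P : PDN) (n o : ℕ) : Bool :=
  (P.pos n == 7 && P.nd n == o) || (P.pos (PDN.flip n o) == 7 && P.nd (PDN.flip n o) == o)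

def chkI (P : PDN) (n i : ℕ) : Bool := P.pd n != i && P.nd n != i

def chkT (P : PDN) (i j k : Fin 3) (x y b : Fin 3 → Bool) : Bool :=
  chkI P (code (mk i (x i) (y i))) i && chkJ P (code (mk j (x j) (y j))) (mo j (b j)) &&
    chkK P (code (mk k (x k) (y k))) (mo k (b k))

def perm6 (q : ℕ) : Fin 3 × Fin 3 × Fin 3 :=
  match q with
  | 0 => (0, 1, 2)
  | 1 => (0, 2, 1)
  | 2 => (1, 0, 2)
  | 3 => (1, 2, 0)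
  | 4 => (2, 0, 1)
  | _ => (2, 1, 0)

def bt (b : Bool) (m : ℕ) : ℕ := if b then m else 0

def entT (x y b : Fin 3 → Bool) : ℕ :=
  (tabT.getD (bt (x 0) 4 + bt (y 0) 2 + bt (b 0) 1) []).getD
    (bt (x 1) 32 + bt (y 1) 16 + bt (b 1) 8 + bt (x 2) 4 + bt (y 2) 2 + bt (b 2) 1) 0

def goodT (x y b : Fin 3 → Bool) : Bool :=
  let e := entT x y b
  let p := perm6 (e % 6)
  chkT (getP (e / 6)) p.1 p.2.1 p.2.2 x y b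

theorem tabT_ok : ∀ x0 y0 b0 x1 y1 b1 x2 y2 b2 : Bool,
    goodT ![x0, x1, x2] ![y0, y1, y2] ![b0, b1, b2] = true := by decide

end Pool.Agent.Y512
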