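import Mathlib
import Pool.Agent.Y512.PathC
import Pool.Agent.Y512.Table

set_option autoImplicit false

/-!
# Thirteen boxes when no contact point is the centre of its facet, or exactly one is
-/

namespace Pool.Agent.Y512

open Set

theorem mk_self (i : Fin 3) (x y : Bool) : mk i x y i = true := by
  fin_cases i <;> rfl

theorem mo_ne (i : Fin 3) (b : Bool) : i ≠ mo i b := by
  revert i b; decide

theorem mo_ne' (i : Fin 3) (b : Bool) : mo i b ≠ mo i (!b) := by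
  revert i b; decide

theorem mo_cases : ∀ (i : Fin 3) (b : Bool) (d : Fin 3), d = i ∨ d = mo i b ∨ d = mo i (!b) := by
  decide

/-- sign pattern of a contact point -/
noncomputable def sx (c : Fin 3 → Fin 3 → ℝ) (i : Fin 3) : Bool := decide (0 ≤ c i (mo i false))
noncomputable def sy (c : Fin 3 → Fin 3 → ℝ) (i : Fin 3) : Bool := decide (0 ≤ c i (mo i true))
noncomputable def sb (c : Fin 3 → Fin 3 → ℝ) (i : Fin 3) : Bool :=
  decide (|c i (mo i true)| ≤ |c i (mo i false)|)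

theorem sg_decide_mul (a : ℝ) : sg (decide (0 ≤ a)) * a = |a| := by
  unfold sg
  by_cases h : 0 ≤ a
  · simp [h, abs_of_nonneg h]
  · push Not at h
    simp [not_le.2 h, abs_of_neg h]

theorem sg_mk (c : Fin 3 → Fin 3 → ℝ) (i d : Fin 3) (hd : d ≠ i) :
    sg (mk i (sx c i) (sy c i) d) * c i d = |c i d| := by
  have key : mk i (sx c i) (sy c i) d = decide (0 ≤ c i d) := by
    fin_cases i <;> fin_cases d <;> simp_all [mk, sx, sy, mo]
  rw [key, sg_decide_mul]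

theorem abs_mo (c : Fin 3 → Fin 3 → ℝ) (i : Fin 3) :
    |c i (mo i (sb c i))| ≤ |c i (mo i (!(sb c i)))| := by
  unfold sb
  by_cases h : |c i (mo i true)| ≤ |c i (mo i false)|
  · simp [h]
  · simp only [h, decide_false, Bool.not_false]
    push Not at h
    exact h.le

theorem abs_mo_pos (c : Fin 3 → Fin 3 → ℝ) (i : Fin 3) (h : ∃ d, d ≠ i ∧ c i d ≠ 0) :
    0 < |c i (mo i (!(sb c i)))| := by
  obtain ⟨d, hd, h0⟩ := h
  rcases mo_cases i (sb c i) d with h1 | h1 | h1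
  · exact absurd h1 hd
  · rw [h1] at h0
    exact (abs_pos.2 h0).trans_le (abs_mo c i)
  · rw [h1] at h0
    exact abs_pos.2 h0

theorem chkJ_real {P : PDN} {j : Fin 3} {x y b : Bool}
    (h : chkJ P (code (mk j x y)) (mo j b) = true) :
    ∃ v0 : Vx, P.pos (code v0) = 0 ∧ v0 j = true ∧ P.pd (code v0) = (mo j b : ℕ) ∧
      v0 (mo j (!b)) = mk j x y (mo j (!b)) := by
  simp only [chkJ, Bool.or_eq_true, Bool.and_eq_true, beq_iff_eq] at h
  rcases h with ⟨h1, h2⟩ | ⟨h1, h2⟩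
  · exact ⟨mk j x y, h1, mk_self j x y, h2, rfl⟩
  · refine ⟨flipv (mk j x y) (mo j b), ?_, ?_, ?_, ?_⟩
    · rw [code_flip]; exact h1
    · rw [flipv_of_ne _ (mo_ne j b), mk_self]
    · rw [code_flip]; exact h2
    · rw [flipv_of_ne _ (mo_ne' j b).symm]

theorem chkK_real {P : PDN} {j : Fin 3} {x y b : Bool}
    (h : chkK P (code (mk j x y)) (mo j b) = true) :
    ∃ v0 : Vx, P.pos (code v0) = 7 ∧ v0 j = true ∧ P.nd (code v0) = (mo j b : ℕ) ∧
      v0 (mo j (!b)) = mk j x y (mo j (!b)) := by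
  simp only [chkK, Bool.or_eq_true, Bool.and_eq_true, beq_iff_eq] at h
  rcases h with ⟨h1, h2⟩ | ⟨h1, h2⟩
  · exact ⟨mk j x y, h1, mk_self j x y, h2, rfl⟩
  · refine ⟨flipv (mk j x y) (mo j b), ?_, ?_, ?_, ?_⟩
    · rw [code_flip]; exact h1
    · rw [flipv_of_ne _ (mo_ne j b), mk_self]
    · rw [code_flip]; exact h2
    · rw [flipv_of_ne _ (mo_ne' j b).symm]

theorem perm6_all (q : ℕ) : ∀ m : Fin 3, m = (perm6 q).1 ∨ m = (perm6 q).2.1 ∨
    m = (perm6 q).2.2 := by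
  unfold perm6
  split <;> decide

/-- the two directions of the path at a vertex that are different from `i` are all directions
different from `i` -/
theorem pd_or_nd {P : PDN} (hP : P.check = true) {v : Vx} {i : Fin 3}
    (h1 : P.pd (code v) ≠ i) (h2 : P.nd (code v) ≠ i) (d : Fin 3) (hd : d ≠ i) :
    P.pd (code v) = d ∨ P.nd (code v) = d := by
  obtain ⟨_, hpd3, hnd3, hne⟩ := check_vert hP (code_lt v)
  have h3 := d.2
  have h4 := i.2
  have h5 : (d : ℕ) ≠ i := fun h => hd (Fin.ext h)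
  omega

theorem boxCov_chkT {P : PDN} (hP : P.check = true) (i j k : Fin 3)
    (hall : ∀ m, m = i ∨ m = j ∨ m = k) (c : Fin 3 → Fin 3 → ℝ) (hc1 : ∀ i, c i i = 1)
    (hcb : ∀ i j, |c i j| ≤ 1) (hne : ∀ i, ∃ d, d ≠ i ∧ c i d ≠ 0)
    (htab : chkT P i j k (sx c) (sy c) (sb c) = true) : BoxCov c := by
  simp only [chkT, Bool.and_eq_true] at htab
  obtain ⟨⟨hI, hJ⟩, hKk⟩ := htab
  simp only [chkI, Bool.and_eq_true, bne_iff_ne] at hI
  obtain ⟨v0, h0, hv0, hd0, hg0⟩ := chkJ_real hJ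
  obtain ⟨v7, h7, hv7, hd7, hg7⟩ := chkK_real hKk
  set vi := mk i (sx c i) (sy c i) with hvi
  obtain ⟨_, hpd3, hnd3, hne'⟩ := check_vert hP (code_lt vi)
  have hrj : sg (v0 (mo j (!(sb c j)))) * c j (mo j (!(sb c j))) =
      |c j (mo j (!(sb c j)))| := by
    rw [hg0, sg_mk c j _ (mo_ne _ _).symm]
  have hrk : sg (v7 (mo k (!(sb c k)))) * c k (mo k (!(sb c k))) =
      |c k (mo k (!(sb c k)))| := by
    rw [hg7, sg_mk c k _ (mo_ne _ _).symm]
  have hrj0 := abs_mo_pos c j (hne j)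
  have hrk0 := abs_mo_pos c k (hne k)
  have hαβ : 0 < |c i ⟨P.pd (code vi), hpd3⟩| + |c i ⟨P.nd (code vi), hnd3⟩| := by
    obtain ⟨d, hd, hd0⟩ := hne i
    rcases pd_or_nd hP hI.1 hI.2 d hd with h | h
    · have : (⟨P.pd (code vi), hpd3⟩ : Fin 3) = d := Fin.ext h
      rw [this]
      have := abs_pos.2 hd0
      positivity
    · have : (⟨P.nd (code vi), hnd3⟩ : Fin 3) = d := Fin.ext h
      rw [this]
      have := abs_pos.2 hd0
      positivity
  refine path_cover hP c hc1 hcb i j k hall vi v0 v7 (mk_self _ _ _) hI.1 hI.2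
    (α := |c i ⟨P.pd (code vi), hpd3⟩|) (β := |c i ⟨P.nd (code vi), hnd3⟩|)
    ?_ ?_ (abs_nonneg _) (abs_nonneg _) h0 hv0 (mo j (sb c j)) (mo j (!(sb c j))) hd0
    (mo_ne _ _) (mo_ne _ _) (mo_ne' _ _) ?_ h7 hv7 (mo k (sb c k)) (mo k (!(sb c k))) hd7
    (mo_ne _ _) (mo_ne _ _) (mo_ne' _ _) ?_ hαβ ?_ ?_ ?_
  · intro d hd
    have h : (⟨P.pd (code vi), hpd3⟩ : Fin 3) = d := Fin.ext hd
    have hdi : d ≠ i := by
      rintro rfl
      exact hI.1 hd
    rw [h, hvi, sg_mk c i d hdi]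
  · intro d hd
    have h : (⟨P.nd (code vi), hnd3⟩ : Fin 3) = d := Fin.ext hd
    have hdi : d ≠ i := by
      rintro rfl
      exact hI.2 hd
    rw [h, hvi, sg_mk c i d hdi]
  · rw [hrj]; exact abs_mo c j
  · rw [hrk]; exact abs_mo c k
  · rw [hrj, hrk]; positivity
  · rw [hrj]; positivity
  · rw [hrk]; positivity

/-- no contact point is the centre of its facet -/
theorem boxCov_T (c : Fin 3 → Fin 3 → ℝ) (hc1 : ∀ i, c i i = 1) (hcb : ∀ i j, |c i j| ≤ 1)
    (hne : ∀ i, ∃ d, d ≠ i ∧ c i d ≠ 0) : BoxCov c := by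
  have htab := tabT_ok (sx c 0) (sy c 0) (sb c 0) (sx c 1) (sy c 1) (sb c 1) (sx c 2) (sy c 2)
    (sb c 2)
  have e1 : (![sx c 0, sx c 1, sx c 2] : Fin 3 → Bool) = sx c := by
    funext i; fin_cases i <;> rfl
  have e2 : (![sy c 0, sy c 1, sy c 2] : Fin 3 → Bool) = sy c := by
    funext i; fin_cases i <;> rfl
  have e3 : (![sb c 0, sb c 1, sb c 2] : Fin 3 → Bool) = sb c := by
    funext i; fin_cases i <;> rfl
  rw [e1, e2, e3] at htab
  exact boxCov_chkT (getP_ok _) _ _ _ (perm6_all _) c hc1 hcb hne htab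

end Pool.Agent.Y512
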