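import Mathlib
import Pool.Agent.Y512.NoCentre

set_option autoImplicit false

/-!
# Thirteen boxes when exactly one contact point is the centre of its facet
-/

namespace Pool.Agent.Y512

open Set

def chkE (P : PDN) : Bool :=
  P.pos (P.path.getD 7 0) == 7 && decide (P.path.getD 7 0 < 8) && (P.path.getD 7 0).testBit 0 &&
    P.nd (P.path.getD 7 0) != 0

def chk1 (P : PDN) (n1 h n2 o2 : ℕ) : Bool :=
  P.pd n1 == h && P.nd n1 != 1 && chkJ P n2 o2 && chkE P

def goodC (x1 y1 x2 y2 b2 : Bool) : Bool :=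
  chk1 (getP (tabC.getD (bt x1 16 + bt y1 8 + bt x2 4 + bt y2 2 + bt b2 1) 0))
    (code (mk 1 x1 y1)) 0 (code (mk 2 x2 y2)) (mo 2 b2)

theorem tabC_ok : ∀ x1 y1 x2 y2 b2 : Bool, goodC x1 y1 x2 y2 b2 = true := by decide

def goodE (y1 y2 : Bool) : Bool :=
  chk1 (getP (tabE.getD (bt y1 2 + bt y2 1) 0))
    (code (mk 1 false y1)) 2 (code (mk 2 false y2)) (mo 2 false)

theorem tabE_ok : ∀ y1 y2 : Bool, ¬ (y1 = true ∧ y2 = true) → goodE y1 y2 = true := by decide

theorem code_dec {n : ℕ} (hn : n < 8) : code (dec n) = n := by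
  interval_cases n <;> rfl

theorem boxCov_chk1 {P : PDN} (hP : P.check = true) (h : Fin 3) (hh : h ≠ 1)
    (c : Fin 3 → Fin 3 → ℝ) (hc1 : ∀ i, c i i = 1) (hcb : ∀ i j, |c i j| ≤ 1)
    (h01 : c 0 1 = 0) (h02 : c 0 2 = 0) (s1 : Vx) (hs1 : s1 1 = true)
    (hs1' : ∀ d, d ≠ 1 → sg (s1 d) * c 1 d = |c 1 d|) (hne1 : c 1 h ≠ 0)
    (x2 y2 b2 : Bool) (hs2 : ∀ d, d ≠ 2 → sg (mk 2 x2 y2 d) * c 2 d = |c 2 d|)
    (hb2 : |c 2 (mo 2 b2)| ≤ |c 2 (mo 2 (!b2))|) (hpos2 : 0 < |c 2 (mo 2 (!b2))|)
    (htab : chk1 P (code s1) h (code (mk 2 x2 y2)) (mo 2 b2) = true) : BoxCov c := by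
  simp only [chk1, Bool.and_eq_true, beq_iff_eq, bne_iff_ne] at htab
  obtain ⟨⟨⟨hpd, hnd⟩, hJ⟩, hE⟩ := htab
  simp only [chkE, Bool.and_eq_true, beq_iff_eq, bne_iff_ne, decide_eq_true_eq] at hE
  set e := P.path.getD 7 0 with he
  obtain ⟨⟨⟨h7, he8⟩, hbit⟩, hnd7⟩ := hE
  obtain ⟨v0, h0, hv0, hd0, hg0⟩ := chkJ_real hJ
  obtain ⟨_, hpd3, hnd3, hne'⟩ := check_vert hP (code_lt s1)
  have hc7 : code (dec e) = e := code_dec he8
  obtain ⟨_, _, hnd3', _⟩ := check_vert hP (code_lt (dec e))
  have hrj : sg (v0 (mo 2 (!b2))) * c 2 (mo 2 (!b2)) = |c 2 (mo 2 (!b2))| := by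
    rw [hg0, hs2 _ (mo_ne _ _).symm]
  have hc0 : ∀ d : Fin 3, d ≠ 0 → c 0 d = 0 := by
    intro d hd
    fin_cases d
    · exact absurd rfl hd
    · exact h01
    · exact h02
  -- the direction of the last edge
  obtain ⟨dk, gk, hdk, hdk0, hgk0, hdg⟩ : ∃ dk gk : Fin 3, P.nd (code (dec e)) = dk ∧
      (0 : Fin 3) ≠ dk ∧ (0 : Fin 3) ≠ gk ∧ dk ≠ gk := by
    rw [hc7] at hnd3' ⊢
    generalize P.nd e = q at *
    interval_cases q
    · exact absurd rfl hnd7
    · exact ⟨1, 2, rfl, by decide, by decide, by decide⟩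
    · exact ⟨2, 1, rfl, by decide, by decide, by decide⟩
  have hα : 0 < |c 1 h| := abs_pos.2 hne1
  refine path_cover hP c hc1 hcb 1 2 0 (by decide) s1 v0 (dec e) hs1
    (by rw [hpd]; intro h'; exact hh (Fin.ext h')) hnd
    (α := |c 1 h|) (β := |c 1 ⟨P.nd (code s1), hnd3⟩|)
    ?_ ?_ (abs_nonneg _) (abs_nonneg _) h0 hv0 (mo 2 b2) (mo 2 (!b2)) hd0
    (mo_ne _ _) (mo_ne _ _) (mo_ne' _ _) ?_ (by rw [hc7]; exact h7) ?_ dk gk hdk
    hdk0 hgk0 hdg ?_ ?_ ?_ ?_ ?_
  · intro d hd
    have h' : h = d := Fin.ext (by rw [← hd, hpd])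
    rw [← h', hs1' h hh]
  · intro d hd
    have h' : (⟨P.nd (code s1), hnd3⟩ : Fin 3) = d := Fin.ext hd
    have hd1 : d ≠ 1 := by
      rintro rfl
      exact hnd hd
    rw [h', hs1' d hd1]
  · rw [hrj]; exact hb2
  · simpa [dec] using hbit
  · rw [hc0 dk hdk0.symm, hc0 gk hgk0.symm]; simp
  · positivity
  · rw [hrj, hc0 gk hgk0.symm, mul_zero, add_zero]; exact hpos2
  · rw [hrj]; positivity
  · rw [hc0 gk hgk0.symm, mul_zero, add_zero]; exact hα

theorem sg_mk' (c : Fin 3 → Fin 3 → ℝ) (i : Fin 3) :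
    ∀ d, d ≠ i → sg (mk i (sx c i) (sy c i) d) * c i d = |c i d| :=
  fun d hd => sg_mk c i d hd

/-- exactly one centre, and the first coordinate of contact `1` does not vanish -/
theorem boxCov_C (c : Fin 3 → Fin 3 → ℝ) (hc1 : ∀ i, c i i = 1) (hcb : ∀ i j, |c i j| ≤ 1)
    (h01 : c 0 1 = 0) (h02 : c 0 2 = 0) (h10 : c 1 0 ≠ 0) (hne : ∃ d, d ≠ 2 ∧ c 2 d ≠ 0) :
    BoxCov c :=
  boxCov_chk1 (getP_ok _) 0 (by decide) c hc1 hcb h01 h02 (mk 1 (sx c 1) (sy c 1))
    (mk_self _ _ _) (sg_mk' c 1) h10 (sx c 2) (sy c 2) (sb c 2) (sg_mk' c 2) (abs_mo c 2)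
    (abs_mo_pos c 2 hne) (tabC_ok (sx c 1) (sy c 1) (sx c 2) (sy c 2) (sb c 2))

/-- one centre, the other two contacts on the middle lines -/
theorem boxCov_E (c : Fin 3 → Fin 3 → ℝ) (hc1 : ∀ i, c i i = 1) (hcb : ∀ i j, |c i j| ≤ 1)
    (h01 : c 0 1 = 0) (h02 : c 0 2 = 0) (h10 : c 1 0 = 0) (h20 : c 2 0 = 0)
    (h12 : c 1 2 ≠ 0) (h21 : c 2 1 ≠ 0) (hneg : ¬ (0 < c 1 2 ∧ 0 < c 2 1)) : BoxCov c := by
  have hE : goodE (sy c 1) (sy c 2) = true := by
    apply tabE_ok
    rintro ⟨e1, e2⟩
    apply hneg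
    simp only [sy, mo, if_true, decide_eq_true_eq] at e1 e2
    exact ⟨lt_of_le_of_ne e1 (Ne.symm h12), lt_of_le_of_ne e2 (Ne.symm h21)⟩
  have hs : ∀ (i : Fin 3), i ≠ 0 → c i 0 = 0 →
      ∀ d, d ≠ i → sg (mk i false (sy c i) d) * c i d = |c i d| := by
    intro i hi0 hi d hd
    by_cases hd0 : d = 0
    · subst hd0; rw [hi]; simp
    · have h := sg_mk c i d hd
      have h' : mk i false (sy c i) d = mk i (sx c i) (sy c i) d := by
        fin_cases i <;> fin_cases d <;> simp_all [mk]
      rw [h', h]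
  exact boxCov_chk1 (getP_ok _) 2 (by decide) c hc1 hcb h01 h02 (mk 1 false (sy c 1))
    (mk_self _ _ _) (hs 1 (by decide) h10) h12 false (sy c 2) false (hs 2 (by decide) h20)
    (by simp [mo, h20]) (by simpa [mo] using h21) hE

/-- every point of the skeleton lies in a corner box or in the gap of an edge -/
theorem skel_gap {ℓ : Vx → Fin 3 → ℝ} (hℓ : ∀ v d, 0 ≤ ℓ v d) {y : Fin 3 → ℝ}
    (hy : y ∈ Skel 3) :
    (∃ v : Vx, ∀ i, 1 - ℓ v i ≤ sg (v i) * y i ∧ sg (v i) * y i ≤ 1) ∨
    ∃ (v : Vx) (d : Fin 3), v d = true ∧ (∀ i, i ≠ d → y i = sg (v i)) ∧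
      -1 + ℓ (flipv v d) d < y d ∧ y d < 1 - ℓ v d := by
  obtain ⟨hall, i, j, hij, hi, hj⟩ := hy
  obtain ⟨bi, hbi⟩ := eq_sg_of_abs hi
  obtain ⟨bj, hbj⟩ := eq_sg_of_abs hj
  obtain ⟨d, hd⟩ := fin3_third i j hij
  obtain ⟨v, hvd, hv⟩ : ∃ v : Vx, v d = true ∧ ∀ k, k ≠ d → y k = sg (v k) := by
    refine ⟨Function.update (Function.update (Function.update (fun _ => true) i bi) j bj) d true,
      by simp, fun k hk => ?_⟩
    rw [Function.update_of_ne hk]
    rcases hd k hk with rfl | rfl
    · rw [Function.update_of_ne hij, Function.update_self, hbi]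
    · rw [Function.update_self, hbj]
  have h1 := abs_le.1 (hall d)
  by_cases c1 : 1 - ℓ v d ≤ y d
  · left
    refine ⟨v, fun k => ?_⟩
    by_cases hk : k = d
    · subst hk
      rw [hvd]
      simp only [sg, if_true, one_mul]
      exact ⟨c1, h1.2⟩
    · rw [hv k hk, sg_mul_sg]
      exact ⟨by linarith [hℓ v k], le_rfl⟩
  · by_cases c2 : y d ≤ -1 + ℓ (flipv v d) d
    · left
      refine ⟨flipv v d, fun k => ?_⟩
      by_cases hk : k = d
      · subst hk
        rw [sg_flipv_self, hvd]
        simp only [sg, if_true]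
        constructor <;> linarith [h1.1]
      · rw [flipv_of_ne v hk, hv k hk, sg_mul_sg]
        exact ⟨by linarith [hℓ (flipv v d) k], le_rfl⟩
    · right
      push Not at c1 c2
      exact ⟨v, d, hvd, hv, c2, c1⟩

/-- the lengths of the corner boxes in the special case -/
noncomputable def lenS (ε : ℝ) (v : Vx) (d : Fin 3) : ℝ :=
  match v 0, v 1, v 2, d with
  | true, false, false, 1 => 1 - 15 * ε
  | true, false, false, 0 => 1 + 12 * ε
  | false, false, false, 0 => 1 - 12 * ε
  | false, false, false, 2 => 1 + 9 * ε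
  | false, false, true, 2 => 1 - 9 * ε
  | false, false, true, 0 => 1 + 6 * ε
  | true, false, true, 0 => 1 - 6 * ε
  | true, false, true, 1 => 1 + 3 * ε
  | true, true, true, 1 => 1 - 3 * ε
  | true, true, true, 0 => 1
  | false, true, true, 0 => 1
  | false, true, true, 2 => 1 - 3 * ε
  | false, true, false, 2 => 1 + 3 * ε
  | false, true, false, 0 => 1 - 6 * ε
  | true, true, false, 0 => 1 + 6 * ε
  | true, true, false, 1 => 1 - 9 * ε
  | _, _, _, _ => ε

/-- the special case: centre `(1,0,0)`, other contacts `(0,1,d)` and `(0,f,1)` with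
`d, f > 0` -/
theorem boxCov_S (c : Fin 3 → Fin 3 → ℝ) (hc1 : ∀ i, c i i = 1) (hcb : ∀ i j, |c i j| ≤ 1)
    (h01 : c 0 1 = 0) (h02 : c 0 2 = 0) (h10 : c 1 0 = 0) (h20 : c 2 0 = 0)
    (h12 : 0 < c 1 2) (h21 : 0 < c 2 1) : BoxCov c := by
  set m := min (c 1 2) (c 2 1) with hm
  have hm0 : 0 < m := lt_min h12 h21
  have hm1 : m ≤ c 1 2 := min_le_left _ _
  have hm2 : m ≤ c 2 1 := min_le_right _ _
  have hm3 : m ≤ 1 := hm1.trans ((le_abs_self _).trans (hcb 1 2))
  set ε := m / 50 with hεd
  have hε : 0 < ε := by positivity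
  have hε1 : ε ≤ 1 / 50 := by rw [hεd]; linarith
  have hεd' : 3 * ε ≤ c 1 2 := by rw [hεd]; linarith
  have hεf' : 3 * ε ≤ c 2 1 := by rw [hεd]; linarith
  have hc12 : c 1 2 ≤ 1 := (le_abs_self _).trans (hcb 1 2)
  have hc21 : c 2 1 ≤ 1 := (le_abs_self _).trans (hcb 2 1)
  have hnn : ∀ v d, 0 ≤ lenS ε v d := by
    intro v d
    unfold lenS
    split <;> linarith
  have hsum : ∀ v, ∑ d, lenS ε v d = 2 - 2 * ε := by
    intro v
    rw [Fin.sum_univ_three]
    unfold lenS
    rcases h0 : v 0 with _ | _ <;> rcases h1 : v 1 with _ | _ <;> rcases h2 : v 2 with _ | _ <;>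
      simp <;> ring
  let D0 : SBox := (![true, true, false], ![1, -15 * ε, 0], ![1, 9 * ε, 1])
  refine ⟨vlist.map (fun v => (v, fun i => 1 - lenS ε v i, fun _ => 1)) ++
    [(2, 1), (6, 1), (5, 2), (7, 2)].map (edgeB ε) ++ [D0], ?_, ?_, ?_, ?_⟩
  · simp [vlist]
  · intro b hb
    simp only [List.mem_append, List.mem_map, List.mem_cons, List.not_mem_nil, or_false] at hb
    rcases hb with (⟨v, _, rfl⟩ | ⟨e, he, rfl⟩) | rfl
    · constructor
      · intro i
        change 1 - lenS ε v i ≤ 1
        linarith [hnn v i]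
      · change ∑ i, (1 - (1 - lenS ε v i)) < 2
        simp only [sub_sub_cancel]
        rw [hsum]
        linarith
    · apply edgeB_ok hε (by linarith)
      rcases he with rfl | rfl | rfl | rfl <;> norm_num
    · constructor
      · intro i
        fin_cases i <;> simp [D0] <;> linarith
      · rw [Fin.sum_univ_three]
        simp [D0]
        linarith
  · intro y hy
    rcases skel_gap hnn hy with ⟨v, hv⟩ | ⟨v, d, hvd, hyv, hy1, hy2⟩
    · refine ⟨(v, fun i => 1 - lenS ε v i, fun _ => 1), ?_, hv⟩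
      simp only [List.mem_append, List.mem_map]
      exact Or.inl (Or.inl ⟨v, mem_vlist v, rfl⟩)
    · have hedge : (code v, (d : ℕ)) ∈ [(2, 1), (6, 1), (5, 2), (7, 2)] → |y d| ≤ 1 - ε →
          ∃ b ∈ vlist.map (fun v => (v, fun i => 1 - lenS ε v i, fun _ => 1)) ++
            [(2, 1), (6, 1), (5, 2), (7, 2)].map (edgeB ε) ++ [D0], SBox.has b y := by
        intro h1 h2
        refine ⟨edgeB ε (code v, (d : ℕ)), ?_, edgeB_has hyv h2⟩
        simp only [List.mem_append]
        exact Or.inl (Or.inr (List.mem_map_of_mem h1))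
      have hv3 : v = ![v 0, v 1, v 2] := by
        funext i; fin_cases i <;> rfl
      fin_cases d
      · rcases h0 : v 0 with _ | _
        · simp [h0] at hvd
        · exfalso
          rcases h1 : v 1 with _ | _ <;> rcases h2 : v 2 with _ | _ <;>
            simp [lenS, flipv, Function.update, h0, h1, h2] at hy1 hy2 <;> linarith
      · rcases h1 : v 1 with _ | _
        · simp [h1] at hvd
        · rcases h0 : v 0 with _ | _ <;> rcases h2 : v 2 with _ | _
          · apply hedge
            · simp [code, h0, h1, h2]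
            · simp [lenS, flipv, Function.update, h0, h1, h2] at hy1 hy2
              rw [abs_le]
              constructor
              · change -(1 - ε) ≤ y 1
                linarith
              · change y 1 ≤ 1 - ε
                linarith
          · apply hedge
            · simp [code, h0, h1, h2]
            · simp [lenS, flipv, Function.update, h0, h1, h2] at hy1 hy2
              rw [abs_le]
              constructor
              · change -(1 - ε) ≤ y 1
                linarith
              · change y 1 ≤ 1 - ε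
                linarith
          · refine ⟨D0, by simp, ?_⟩
            simp [lenS, flipv, Function.update, h0, h1, h2] at hy1 hy2
            have e0 := hyv 0 (by decide)
            have e2 := hyv 2 (by decide)
            rw [h0] at e0
            rw [h2] at e2
            intro i
            fin_cases i
            · simp [D0, sg, e0]
            · simp only [D0, sg]
              simp
              constructor <;> linarith
            · simp [D0, sg, e2]
          · exfalso
            simp [lenS, flipv, Function.update, h0, h1, h2] at hy1 hy2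
            linarith
      · rcases h2 : v 2 with _ | _
        · simp [h2] at hvd
        · rcases h0 : v 0 with _ | _ <;> rcases h1 : v 1 with _ | _
          · exfalso
            simp [lenS, flipv, Function.update, h0, h1, h2] at hy1 hy2
            linarith
          · exfalso
            simp [lenS, flipv, Function.update, h0, h1, h2] at hy1 hy2
            linarith
          · apply hedge
            · simp [code, h0, h1, h2]
            · simp [lenS, flipv, Function.update, h0, h1, h2] at hy1 hy2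
              rw [abs_le]
              constructor
              · change -(1 - ε) ≤ y 2
                linarith
              · change y 2 ≤ 1 - ε
                linarith
          · apply hedge
            · simp [code, h0, h1, h2]
            · simp [lenS, flipv, Function.update, h0, h1, h2] at hy1 hy2
              rw [abs_le]
              constructor
              · change -(1 - ε) ≤ y 2
                linarith
              · change y 2 ≤ 1 - ε
                linarith
  · intro i
    fin_cases i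
    · refine ⟨D0, by simp, ?_⟩
      intro i
      fin_cases i
      · simp [D0, sg, hc1]
      · simp [D0, sg, h01]
        exact hε.le
      · simp [D0, sg, h02]
    · refine ⟨(![false, true, true], fun i => 1 - lenS ε ![false, true, true] i, fun _ => 1),
        ?_, ?_⟩
      · simp only [List.mem_append, List.mem_map]
        exact Or.inl (Or.inl ⟨![false, true, true], mem_vlist _, rfl⟩)
      · intro i
        fin_cases i
        · simp [lenS, sg, h10]
        · simp [lenS, sg, hc1]
          linarith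
        · simp [lenS, sg]
          constructor <;> linarith
    · refine ⟨(![true, true, true], fun i => 1 - lenS ε ![true, true, true] i, fun _ => 1),
        ?_, ?_⟩
      · simp only [List.mem_append, List.mem_map]
        exact Or.inl (Or.inl ⟨![true, true, true], mem_vlist _, rfl⟩)
      · intro i
        fin_cases i
        · simp [lenS, sg, h20]
        · simp [lenS, sg]
          constructor <;> linarith
        · simp [lenS, sg, hc1]
          linarith

end Pool.Agent.Y512
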