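import Mathlib
import Pool.Agent.Y512.OneCentre

set_option autoImplicit false

/-!
# Two contact points are centres of their facets
-/

namespace Pool.Agent.Y512

open Set Topology

theorem box_interior {n : ℕ} {K : Set (Fin n → ℝ)} (hK : Convex ℝ K)
    {a : Fin n → Bool → Fin n → ℝ}
    (h : Chords K a) (lam : Fin n → ℝ) (hl : ∀ i, 0 < lam i) (hs : ∑ i, lam i = 1)
    (u : Fin n → ℝ)
    (hu : ∀ j, |u j - (∑ i, lam i • ((1 / 2 : ℝ) • (a i true + a i false))) j| < lam j) :
    u ∈ interior K := by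
  rw [mem_interior]
  refine ⟨{w | ∀ j, |w j - (∑ i, lam i • ((1 / 2 : ℝ) • (a i true + a i false))) j| < lam j},
    fun w hw => box_mem hK h lam hl hs w fun j => (hw j).le, ?_, hu⟩
  simp only [Set.ofPred_forall]
  exact isOpen_iInter_of_finite fun j => isOpen_lt (by fun_prop) continuous_const

/-- the interior near the third chord -/
theorem zint {K : Set (Fin 3 → ℝ)} {a : Fin 3 → Bool → Fin 3 → ℝ} (h : NF K a)
    (h01 : a 0 true 1 = 0) (h02 : a 0 true 2 = 0) (h10 : a 1 true 0 = 0)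
    (h12 : a 1 true 2 = 0) {t : ℝ} (ht : 0 < t) {u : Fin 3 → ℝ}
    (hu : |u 0 - t * a 2 true 0| + |u 1 - t * a 2 true 1| + t < 1) (hu2 : |u 2| < t) :
    u ∈ interior K := by
  set e := a 2 true 0 with he
  set f := a 2 true 1 with hf
  set s := (1 - (|u 0 - t * e| + |u 1 - t * f| + t)) / 2 with hs
  have hs0 : 0 < s := by rw [hs]; linarith
  have a0 : |u 0 - t * e| < |u 0 - t * e| + s := by linarith
  have b0 : |u 1 - t * f| < |u 1 - t * f| + s := by linarith
  apply box_interior h.conv h.chords ![|u 0 - t * e| + s, |u 1 - t * f| + s, t]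
  · intro i
    fin_cases i
    · simp; positivity
    · simp; positivity
    · simpa using ht
  · rw [Fin.sum_univ_three]
    simp only [Matrix.cons_val_zero, Matrix.cons_val_one, Matrix.cons_val]
    rw [hs]; ring
  · have o := h.chords.off
    have s' := h.chords.self
    have m00 : a 0 true 0 = 1 := by rw [s']; simp [sg]
    have m00' : a 0 false 0 = -1 := by rw [s']; simp [sg]
    have m11 : a 1 true 1 = 1 := by rw [s']; simp [sg]
    have m11' : a 1 false 1 = -1 := by rw [s']; simp [sg]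
    have m22 : a 2 true 2 = 1 := by rw [s']; simp [sg]
    have m22' : a 2 false 2 = -1 := by rw [s']; simp [sg]
    have m01 : a 0 false 1 = 0 := by rw [← o 0 1 (by decide), h01]
    have m02 : a 0 false 2 = 0 := by rw [← o 0 2 (by decide), h02]
    have m10 : a 1 false 0 = 0 := by rw [← o 1 0 (by decide), h10]
    have m12 : a 1 false 2 = 0 := by rw [← o 1 2 (by decide), h12]
    have m20 : a 2 false 0 = e := by rw [← o 2 0 (by decide)]
    have m21 : a 2 false 1 = f := by rw [← o 2 1 (by decide)]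
    intro j
    rw [Fin.sum_univ_three]
    fin_cases j
    · simp [m00, m00', h10, m10, m20, ← he]
      ring_nf
      ring_nf at a0
      linarith
    · simp [m11, m11', h01, m01, m21, ← hf]
      ring_nf
      ring_nf at b0
      linarith
    · simp [m22, m22', h02, m02, h12, m12]
      exact hu2

/-- two of the contact points are centres of their facets -/
structure ZC (K : Set (Fin 3 → ℝ)) (a : Fin 3 → Bool → Fin 3 → ℝ) : Prop where
  nf : NF K a
  h01 : a 0 true 1 = 0
  h02 : a 0 true 2 = 0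
  h10 : a 1 true 0 = 0
  h12 : a 1 true 2 = 0

variable {K : Set (Fin 3 → ℝ)} {a : Fin 3 → Bool → Fin 3 → ℝ}

theorem ZC.int (h : ZC K a) {t : ℝ} (ht : 0 < t) {u : Fin 3 → ℝ}
    (hu : |u 0 - t * a 2 true 0| + |u 1 - t * a 2 true 1| + t < 1) (hu2 : |u 2| < t) :
    u ∈ interior K := zint h.nf h.h01 h.h02 h.h10 h.h12 ht hu hu2

theorem ZC.a00 (h : ZC K a) : a 0 true 0 = 1 := by rw [h.nf.chords.self]; simp [sg]
theorem ZC.a11 (h : ZC K a) : a 1 true 1 = 1 := by rw [h.nf.chords.self]; simp [sg]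

theorem ZC.e1 (h : ZC K a) : |a 2 true 0| ≤ 1 := h.nf.cube _ (h.nf.chords.mem 2 true) 0
theorem ZC.f1 (h : ZC K a) : |a 2 true 1| ≤ 1 := h.nf.cube _ (h.nf.chords.mem 2 true) 1

theorem litV0 (h : ZC K a) (hef : a 2 true 0 ≤ a 2 true 1) :
    ∃ t : Fin 3 → ℝ, Lit K t (a 0 true) ∧
      ∀ y : Fin 3 → ℝ, y 0 = 1 → y 1 = 1 → |y 2| ≤ 19 / 20 → Lit K t y := by
  have he := abs_le.1 h.e1
  have hf := abs_le.1 h.f1
  have h00 := h.a00
  have h01 := h.h01
  have h02 := h.h02
  set e := a 2 true 0 with hedef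
  set f := a 2 true 1 with hfdef
  refine ⟨![39 / 40 * e - 1, 39 / 40 * f - 1 + 1 / 80, 0], ⟨1 / 4, by norm_num, ?_⟩, ?_⟩
  · apply h.int (t := 1 / 1280) (by norm_num)
    · have A : |1 + 1 / 4 * (39 / 40 * e - 1) - 1 / 1280 * e| ≤
          1 + 1 / 4 * (39 / 40 * e - 1) + 1 / 1280 := abs_le.2 ⟨by linarith, by linarith⟩
      have B : |0 + 1 / 4 * (39 / 40 * f - 1 + 1 / 80) - 1 / 1280 * f| ≤
          -(1 / 4 * (39 / 40 * f - 1 + 1 / 80)) + 1 / 1280 :=
        abs_le.2 ⟨by linarith, by linarith⟩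
      simp only [Pi.add_apply, Pi.smul_apply, smul_eq_mul, Matrix.cons_val_zero,
        Matrix.cons_val_one, h00, h01, ← hedef, ← hfdef]
      linarith
    · simp [h02]
  · intro y hy0 hy1 hy2
    refine ⟨1, one_pos, ?_⟩
    rw [one_smul]
    apply h.int (t := 39 / 40) (by norm_num)
    · simp only [Pi.add_apply, Matrix.cons_val_zero, Matrix.cons_val_one, hy0, hy1, ← hedef,
        ← hfdef]
      have A : (1 : ℝ) + (39 / 40 * e - 1) - 39 / 40 * e = 0 := by ring
      have B : (1 : ℝ) + (39 / 40 * f - 1 + 1 / 80) - 39 / 40 * f = 1 / 80 := by ring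
      rw [A, B]
      norm_num
    · simp only [Pi.add_apply, Matrix.cons_val, add_zero]
      linarith

theorem litV1 (h : ZC K a) (b : Bool) (hef : a 2 true 1 ≤ sg b * a 2 true 0) :
    ∃ t : Fin 3 → ℝ, Lit K t (a 1 true) ∧
      ∀ y : Fin 3 → ℝ, y 0 = sg b → y 1 = 1 → |y 2| ≤ 19 / 20 → Lit K t y := by
  have he := abs_le.1 h.e1
  have hf := abs_le.1 h.f1
  have h11 := h.a11
  have h10 := h.h10
  have h12 := h.h12
  set e := a 2 true 0 with hedef
  set f := a 2 true 1 with hfdef
  set s := sg b with hs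
  have hss : s = 1 ∨ s = -1 := by
    rw [hs]; cases b <;> simp [sg]
  refine ⟨![39 / 40 * e - s + s * (1 / 80), 39 / 40 * f - 1, 0], ⟨1 / 4, by norm_num, ?_⟩, ?_⟩
  · apply h.int (t := 1 / 1280) (by norm_num)
    · have A : |0 + 1 / 4 * (39 / 40 * e - s + s * (1 / 80)) - 1 / 1280 * e| ≤
          -(1 / 4 * (39 / 40 * (s * e) - 1 + 1 / 80)) + 1 / 1280 := by
        rcases hss with hs1 | hs1 <;> rw [hs1] at hef ⊢ <;>
          exact abs_le.2 ⟨by linarith, by linarith⟩
      have B : |1 + 1 / 4 * (39 / 40 * f - 1) - 1 / 1280 * f| ≤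
          1 + 1 / 4 * (39 / 40 * f - 1) + 1 / 1280 :=
        abs_le.2 ⟨by linarith, by linarith⟩
      simp only [Pi.add_apply, Pi.smul_apply, smul_eq_mul, Matrix.cons_val_zero,
        Matrix.cons_val_one, h11, h10, ← hedef, ← hfdef]
      linarith
    · simp [h12]
  · intro y hy0 hy1 hy2
    refine ⟨1, one_pos, ?_⟩
    rw [one_smul]
    apply h.int (t := 39 / 40) (by norm_num)
    · simp only [Pi.add_apply, Matrix.cons_val_zero, Matrix.cons_val_one, hy0, hy1, ← hedef,
        ← hfdef]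
      have A : s + (39 / 40 * e - s + s * (1 / 80)) - 39 / 40 * e = s * (1 / 80) := by ring
      have B : (1 : ℝ) + (39 / 40 * f - 1) - 39 / 40 * f = 0 := by ring
      rw [A, B]
      rcases hss with hs1 | hs1 <;> rw [hs1] <;> norm_num [abs_lt]
    · simp only [Pi.add_apply, Matrix.cons_val, add_zero]
      linarith

theorem litH0 (h : ZC K a) (hef : |a 2 true 1| ≤ a 2 true 0) :
    ∃ t : Fin 3 → ℝ, Lit K t (a 0 true) ∧
      ∀ y : Fin 3 → ℝ, y 0 = 1 → y 2 = -1 → |y 1| ≤ 19 / 20 → Lit K t y := by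
  have he := abs_le.1 h.e1
  have hf := abs_le.1 h.f1
  have hf' := abs_le.1 hef
  have h00 := h.a00
  have h01 := h.h01
  have h02 := h.h02
  set e := a 2 true 0 with hedef
  set f := a 2 true 1 with hfdef
  refine ⟨![-1, 0, 30 / 31], ⟨1 / 4, by norm_num, ?_⟩, ?_⟩
  · apply h.int (t := 61 / 248) (by norm_num)
    · simp only [Pi.add_apply, Pi.smul_apply, smul_eq_mul, Matrix.cons_val_zero,
        Matrix.cons_val_one, h00, h01, ← hedef, ← hfdef]
      have A : |1 + 1 / 4 * -1 - 61 / 248 * e| = 1 + 1 / 4 * -1 - 61 / 248 * e :=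
        abs_of_nonneg (by linarith)
      have B : |0 + 1 / 4 * 0 - 61 / 248 * f| ≤ 61 / 248 * e :=
        abs_le.2 ⟨by linarith, by linarith⟩
      rw [A]
      linarith
    · simp only [Pi.add_apply, Pi.smul_apply, smul_eq_mul, Matrix.cons_val, h02]
      norm_num [abs_lt]
  · intro y hy0 hy2 hy1
    refine ⟨31 / 30, by norm_num, ?_⟩
    apply h.int (t := 1 / 240) (by norm_num)
    · simp only [Pi.add_apply, Pi.smul_apply, smul_eq_mul, Matrix.cons_val_zero,
        Matrix.cons_val_one, hy0, ← hedef, ← hfdef]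
      have h1 := abs_le.1 hy1
      have A : |1 + 31 / 30 * -1 - 1 / 240 * e| ≤ 1 / 30 + 1 / 240 :=
        abs_le.2 ⟨by linarith, by linarith⟩
      have B : |y 1 + 31 / 30 * 0 - 1 / 240 * f| ≤ 19 / 20 + 1 / 240 :=
        abs_le.2 ⟨by linarith, by linarith⟩
      linarith
    · simp only [Pi.add_apply, Pi.smul_apply, smul_eq_mul, Matrix.cons_val, hy2]
      norm_num

def PZa : PDN := ⟨[7, 6, 4, 5, 1, 0, 2, 3], 1, 1⟩
def PZc : PDN := ⟨[6, 7, 5, 4, 0, 1, 3, 2], 1, 2⟩

theorem PZa_ok : PZa.check = true := by decide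
theorem PZc_ok : PZc.check = true := by decide
theorem PZa_extras : PZa.extras = [(0, 2), (2, 2), (3, 2)] := by decide
theorem PZc_extras : PZc.extras = [(0, 1), (1, 2), (3, 2)] := by decide

theorem code3 : ∀ v : Vx, code v = 3 → v = ![true, true, false] := by decide

theorem PZa_0 : ∀ v : Vx, PZa.pos (code v) = 0 → v = ![true, true, true] := by decide
theorem PZa_0d : ∀ (v : Vx) (d : Fin 3), PZa.pos (code v) = 0 → PZa.pd (code v) = d → d = 1 := by
  decide
theorem PZa_7 : ∀ v : Vx, PZa.pos (code v) = 7 → v = ![true, true, false] := by decide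
theorem PZa_7d : ∀ (v : Vx) (d : Fin 3), PZa.pos (code v) = 7 → PZa.nd (code v) = d → d = 1 := by
  decide
theorem PZc_0 : ∀ v : Vx, PZc.pos (code v) = 0 → v = ![false, true, true] := by decide
theorem PZc_0d : ∀ (v : Vx) (d : Fin 3), PZc.pos (code v) = 0 → PZc.pd (code v) = d → d = 1 := by
  decide
theorem PZc_7 : ∀ v : Vx, PZc.pos (code v) = 7 → v = ![false, true, false] := by decide
theorem PZc_7d : ∀ (v : Vx) (d : Fin 3), PZc.pos (code v) = 7 → PZc.nd (code v) = d → d = 2 := by
  decide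

theorem ZC.c2 (h : ZC K a) : a 2 true 2 = 1 := by rw [h.nf.chords.self]; simp [sg]

/-- 13 directions: boxes from a list and two further directions -/
theorem covN_list (h : NF K a) (L : List SBox) (hL : L.length ≤ 11) (hok : ∀ b ∈ L, b.ok)
    (t1 t2 : Fin 3 → ℝ)
    (hsk : ∀ y ∈ Skel 3, (∃ b ∈ L, b.has y) ∨ Lit K t1 y ∨ Lit K t2 y)
    (hco : ∀ i, (∃ b ∈ L, b.has (a i true)) ∨ Lit K t1 (a i true) ∨ Lit K t2 (a i true)) :
    CovN 13 K := by
  classical
  have key : ∀ b ∈ L, ∃ t : Fin 3 → ℝ, ∀ y, b.has y → Lit K t y :=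
    fun b hb => sbox_lit h (hok b hb)
  choose! t ht using key
  have main : ∀ y : Fin 3 → ℝ, ((∃ b ∈ L, b.has y) ∨ Lit K t1 y ∨ Lit K t2 y) →
      ∃ t' ∈ (t1 :: t2 :: L.map t).toFinset, Lit K t' y := by
    rintro y (⟨b, hb, hby⟩ | hy | hy)
    · refine ⟨t b, List.mem_toFinset.2 ?_, ht b hb y hby⟩
      exact List.mem_cons_of_mem _ (List.mem_cons_of_mem _ (List.mem_map_of_mem hb))
    · exact ⟨t1, by simp, hy⟩
    · exact ⟨t2, by simp, hy⟩
  refine covN_of_lit (by norm_num) h 13 (t1 :: t2 :: L.map t).toFinset ?_ ?_ ?_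
  · refine (List.toFinset_card_le _).trans ?_
    simp only [List.length_cons, List.length_map]
    omega
  · intro y hy
    exact main y (hsk y hy)
  · intro i
    exact main _ (hco i)

theorem covN_Za (h : ZC K a) (hef : |a 2 true 1| ≤ a 2 true 0) : CovN 13 K := by
  have he := abs_le.1 h.e1
  have he0 : 0 ≤ a 2 true 0 := (abs_nonneg _).trans hef
  obtain ⟨t0, ht0, ht0'⟩ := litH0 h hef
  obtain ⟨t1, ht1, ht1'⟩ := litV1 h true (by
    simp only [sg, if_true, one_mul]; exact (le_abs_self _).trans hef)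
  have hε : (0 : ℝ) < 1 / 20 := by norm_num
  have h1 : (0 : ℝ) ≤ 1 := zero_le_one
  have h2 : (-1 : ℝ) + 17 * (1 / 20) ≤ 0 := by norm_num
  obtain ⟨bj, hbj1, hbj2, hbj3⟩ := ded_box (a 2 true) ![true, true, true] 2 1 0 (by decide)
    (by decide) (by decide) rfl h.c2 (by simpa [sg] using hef) (by simpa [sg] using he.2)
    hε (by norm_num)
  refine covN_list h.nf (vlist.map (cornerB PZa 0 (1 / 20)) ++
    [(0, 2), (2, 2)].map (edgeB (1 / 20)) ++ [bj]) (by simp [vlist]) ?_ t0 t1 ?_ ?_
  · intro b hb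
    simp only [List.mem_append, List.mem_map, List.mem_cons, List.not_mem_nil, or_false] at hb
    rcases hb with (⟨v, _, rfl⟩ | ⟨e, he, rfl⟩) | rfl
    · exact cornerB_ok PZa_ok hε h1 h2 v
    · apply edgeB_ok hε (by norm_num)
      rcases he with rfl | rfl <;> norm_num
    · exact hbj1
  · intro y hy
    rcases path_pos PZa_ok hε h1 h2 hy with ⟨v, hv⟩ | ⟨v, d, hvd, hyi, hyd⟩ |
      ⟨v, d, hpos, hpd, hyi, hy1, hy2⟩ | ⟨v, d, hpos, hnd, hyi, hy1, hy2⟩
    · left
      refine ⟨cornerB PZa 0 (1 / 20) v, ?_, hv⟩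
      simp only [List.mem_append, List.mem_map]
      exact Or.inl (Or.inl ⟨v, mem_vlist v, rfl⟩)
    · rw [PZa_extras] at hvd
      have hc : (code v, (d : ℕ)) ∈ [(0, 2), (2, 2)] ∨ (code v, (d : ℕ)) = (3, 2) := by
        simp only [List.mem_cons, List.not_mem_nil, or_false] at hvd ⊢
        tauto
      rcases hc with hc | hc
      · left
        refine ⟨edgeB (1 / 20) (code v, (d : ℕ)), ?_, edgeB_has hyi hyd⟩
        simp only [List.mem_append]
        exact Or.inl (Or.inr (List.mem_map_of_mem hc))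
      · right; right
        rw [Prod.mk.injEq] at hc
        have hv := code3 v hc.1
        have hd : d = 2 := Fin.ext hc.2
        subst hd
        subst hv
        apply ht1'
        · rw [hyi 0 (by decide)]; rfl
        · rw [hyi 1 (by decide)]; simp [sg]
        · linarith
    · have hv := PZa_0 v hpos
      have hd := PZa_0d v d hpos hpd
      subst hd
      subst hv
      left
      refine ⟨bj, by simp, hbj3 y hyi hy1 ?_⟩
      have : (0 : ℝ) ≤ sg (![true, true, true] (0 : Fin 3)) * a 2 true 0 := by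
        simpa [sg] using he0
      linarith
    · have hv := PZa_7 v hpos
      have hd := PZa_7d v d hpos hnd
      subst hd
      subst hv
      right; left
      apply ht0'
      · rw [hyi 0 (by decide)]; simp [sg]
      · rw [hyi 2 (by decide)]; simp [sg]
      · simp only [sg, Matrix.cons_val_one, Matrix.cons_val_zero, if_true, one_mul] at hy1 hy2
        rw [abs_le]
        constructor <;> linarith
  · intro i
    fin_cases i
    · exact Or.inr (Or.inl ht0)
    · exact Or.inr (Or.inr ht1)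
    · exact Or.inl ⟨bj, by simp, hbj2⟩

theorem covN_Zc (h : ZC K a) (hef : |a 2 true 1| ≤ -a 2 true 0) : CovN 13 K := by
  have he := abs_le.1 h.e1
  have he0 : 0 ≤ -a 2 true 0 := (abs_nonneg _).trans hef
  have hf' := abs_le.1 hef
  obtain ⟨t0, ht0, ht0'⟩ := litV0 h (by linarith)
  obtain ⟨t1, ht1, ht1'⟩ := litV1 h false (by
    simp only [sg]; simp only [Bool.false_eq_true, if_false]; linarith)
  have hε : (0 : ℝ) < 1 / 20 := by norm_num
  have h1 : (0 : ℝ) ≤ 1 := zero_le_one
  have h2 : (-1 : ℝ) + 17 * (1 / 20) ≤ 0 := by norm_num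
  obtain ⟨bj, hbj1, hbj2, hbj3⟩ := ded_box (a 2 true) ![false, true, true] 2 1 0 (by decide)
    (by decide) (by decide) rfl h.c2 (by simpa [sg] using hef) (by
      simp [sg]; linarith)
    hε (by norm_num)
  refine covN_list h.nf (vlist.map (cornerB PZc 0 (1 / 20)) ++
    [(0, 1), (1, 2)].map (edgeB (1 / 20)) ++ [bj]) (by simp [vlist]) ?_ t0 t1 ?_ ?_
  · intro b hb
    simp only [List.mem_append, List.mem_map, List.mem_cons, List.not_mem_nil, or_false] at hb
    rcases hb with (⟨v, _, rfl⟩ | ⟨e, he, rfl⟩) | rfl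
    · exact cornerB_ok PZc_ok hε h1 h2 v
    · apply edgeB_ok hε (by norm_num)
      rcases he with rfl | rfl <;> norm_num
    · exact hbj1
  · intro y hy
    rcases path_pos PZc_ok hε h1 h2 hy with ⟨v, hv⟩ | ⟨v, d, hvd, hyi, hyd⟩ |
      ⟨v, d, hpos, hpd, hyi, hy1, hy2⟩ | ⟨v, d, hpos, hnd, hyi, hy1, hy2⟩
    · left
      refine ⟨cornerB PZc 0 (1 / 20) v, ?_, hv⟩
      simp only [List.mem_append, List.mem_map]
      exact Or.inl (Or.inl ⟨v, mem_vlist v, rfl⟩)
    · rw [PZc_extras] at hvd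
      have hc : (code v, (d : ℕ)) ∈ [(0, 1), (1, 2)] ∨ (code v, (d : ℕ)) = (3, 2) := by
        simp only [List.mem_cons, List.not_mem_nil, or_false] at hvd ⊢
        tauto
      rcases hc with hc | hc
      · left
        refine ⟨edgeB (1 / 20) (code v, (d : ℕ)), ?_, edgeB_has hyi hyd⟩
        simp only [List.mem_append]
        exact Or.inl (Or.inr (List.mem_map_of_mem hc))
      · right; left
        rw [Prod.mk.injEq] at hc
        have hv := code3 v hc.1
        have hd : d = 2 := Fin.ext hc.2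
        subst hd
        subst hv
        apply ht0'
        · rw [hyi 0 (by decide)]; simp [sg]
        · rw [hyi 1 (by decide)]; simp [sg]
        · linarith
    · have hv := PZc_0 v hpos
      have hd := PZc_0d v d hpos hpd
      subst hd
      subst hv
      left
      refine ⟨bj, by simp, hbj3 y hyi hy1 ?_⟩
      have : (0 : ℝ) ≤ sg (![false, true, true] (0 : Fin 3)) * a 2 true 0 := by
        simp [sg]; linarith
      linarith
    · have hv := PZc_7 v hpos
      have hd := PZc_7d v d hpos hnd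
      subst hd
      subst hv
      right; right
      apply ht1'
      · rw [hyi 0 (by decide)]; simp [sg]
      · rw [hyi 1 (by decide)]; simp [sg]
      · have hs : sg ((![false, true, false] : Vx) 2) = -1 := by simp [sg]
        rw [hs] at hy1 hy2
        rw [abs_le]
        constructor <;> linarith
  · intro i
    fin_cases i
    · exact Or.inr (Or.inl ht0)
    · exact Or.inr (Or.inr ht1)
    · exact Or.inl ⟨bj, by simp, hbj2⟩

end Pool.Agent.Y512
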