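import Mathlib
import Pool.Agent.Y512.TwoCentres

set_option autoImplicit false

/-!
# Thirteen translates of the interior cover every convex body of `ℝ³`
-/

namespace Pool.Agent.Y512

open Set Topology

section Perm

variable {n : ℕ}

/-- permutation of the coordinates -/
noncomputable def permE (σ : Equiv.Perm (Fin n)) : (Fin n → ℝ) ≃L[ℝ] (Fin n → ℝ) :=
  (LinearEquiv.funCongrLeft ℝ ℝ σ).toContinuousLinearEquiv

theorem permE_apply (σ : Equiv.Perm (Fin n)) (x : Fin n → ℝ) (i : Fin n) :
    permE σ x i = x (σ i) := rfl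

theorem NF.perm {K : Set (Fin n → ℝ)} {a : Fin n → Bool → Fin n → ℝ} (h : NF K a)
    (σ : Equiv.Perm (Fin n)) :
    NF ((fun x => permE σ x + 0) '' K) (fun i b => permE σ (a (σ i) b)) := by
  have hcont : Continuous fun x => permE σ x + 0 := by fun_prop
  constructor
  · rintro _ ⟨x, hx, rfl⟩ _ ⟨y, hy, rfl⟩ s t hs ht hst
    refine ⟨s • x + t • y, h.conv hx hy hs ht hst, ?_⟩
    simp
  · exact h.comp.image hcont
  · have : interior ((fun x => permE σ x + 0) '' K) = (fun x => permE σ x + 0) '' interior K := by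
      have := ((permE σ).toHomeomorph.trans (Homeomorph.addRight 0)).image_interior K
      exact this.symm
    rw [this]
    exact h.inte.image _
  · rintro _ ⟨y, hy, rfl⟩ i
    simp only [add_zero, permE_apply]
    exact h.cube y hy _
  · constructor
    · intro i b
      exact ⟨a (σ i) b, h.chords.mem _ _, by simp⟩
    · intro i b
      rw [permE_apply]
      exact h.chords.self _ _
    · intro i j hij
      rw [permE_apply, permE_apply]
      exact h.chords.off _ _ (fun h' => hij (σ.injective h'))
  · intro i hB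
    apply h.good (σ i)
    intro t ht h0
    have h1 := TC_map (permE σ) 0 K _ t ht
    rw [add_zero] at h1
    have h2 := hB _ h1 (by rw [permE_apply]; exact h0)
    exact (permE σ).injective (by rw [h2, map_zero])

theorem covN_perm {K : Set (Fin n → ℝ)} {a : Fin n → Bool → Fin n → ℝ} (h : NF K a) (N : ℕ)
    (σ : Equiv.Perm (Fin n))
    (H : ∀ (K' : Set (Fin n → ℝ)), NF K' (fun i b => permE σ (a (σ i) b)) → CovN N K') :
    CovN N K :=
  covN_of_image (permE σ) 0 N K (H _ (h.perm σ))

end Perm

/-- two centred contacts -/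
theorem covN_ZC {K : Set (Fin 3 → ℝ)} {a : Fin 3 → Bool → Fin 3 → ℝ} (h : ZC K a) :
    CovN 13 K := by
  have main : ∀ (K : Set (Fin 3 → ℝ)) (a : Fin 3 → Bool → Fin 3 → ℝ), ZC K a →
      |a 2 true 1| ≤ |a 2 true 0| → CovN 13 K := by
    intro K a h hle
    rcases le_total 0 (a 2 true 0) with h0 | h0
    · rw [abs_of_nonneg h0] at hle
      exact covN_Za h hle
    · rw [abs_of_nonpos h0] at hle
      exact covN_Zc h hle
  rcases le_total |a 2 true 1| |a 2 true 0| with hle | hle
  · exact main K a h hle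
  · apply covN_perm h.nf 13 (Equiv.swap 0 1)
    intro K' hK'
    have s0 : (Equiv.swap (0 : Fin 3) 1) 0 = 1 := by decide
    have s1 : (Equiv.swap (0 : Fin 3) 1) 1 = 0 := by decide
    have s2 : (Equiv.swap (0 : Fin 3) 1) 2 = 2 := by decide
    refine main K' _ ⟨hK', ?_, ?_, ?_, ?_⟩ ?_
    · rw [permE_apply, s0, s1]; exact h.h10
    · rw [permE_apply, s0, s2]; exact h.h12
    · rw [permE_apply, s1, s0]; exact h.h01
    · rw [permE_apply, s1, s2]; exact h.h02
    · rw [permE_apply, permE_apply, s0, s1, s2]; exact hle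

/-- contact `0` is a centre -/
theorem covN_centre0 {K : Set (Fin 3 → ℝ)} {a : Fin 3 → Bool → Fin 3 → ℝ} (h : NF K a)
    (h01 : a 0 true 1 = 0) (h02 : a 0 true 2 = 0) : CovN 13 K := by
  have s0 : (Equiv.swap (1 : Fin 3) 2) 0 = 0 := by decide
  have s1 : (Equiv.swap (1 : Fin 3) 2) 1 = 2 := by decide
  have s2 : (Equiv.swap (1 : Fin 3) 2) 2 = 1 := by decide
  have hself : ∀ i, a i true i = 1 := by
    intro i
    rw [h.chords.self]
    simp [sg]
  have hcb : ∀ i j, |a i true j| ≤ 1 := fun i j => h.cube _ (h.chords.mem i true) j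
  by_cases c1 : a 1 true 0 = 0 ∧ a 1 true 2 = 0
  · exact covN_ZC ⟨h, h01, h02, c1.1, c1.2⟩
  by_cases c2 : a 2 true 0 = 0 ∧ a 2 true 1 = 0
  · apply covN_perm h 13 (Equiv.swap 1 2)
    intro K' hK'
    refine covN_ZC ⟨hK', ?_, ?_, ?_, ?_⟩
    · rw [permE_apply, s0, s1]; exact h02
    · rw [permE_apply, s0, s2]; exact h01
    · rw [permE_apply, s1, s0]; exact c2.1
    · rw [permE_apply, s1, s2]; exact c2.2
  have n1 : ∃ d, d ≠ (1 : Fin 3) ∧ a 1 true d ≠ 0 := by
    by_contra hno
    push Not at hno
    exact c1 ⟨hno 0 (by decide), hno 2 (by decide)⟩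
  have n2 : ∃ d, d ≠ (2 : Fin 3) ∧ a 2 true d ≠ 0 := by
    by_contra hno
    push Not at hno
    exact c2 ⟨hno 0 (by decide), hno 1 (by decide)⟩
  by_cases h10 : a 1 true 0 = 0
  · by_cases h20 : a 2 true 0 = 0
    · have h12 : a 1 true 2 ≠ 0 := fun h' => c1 ⟨h10, h'⟩
      have h21 : a 2 true 1 ≠ 0 := fun h' => c2 ⟨h20, h'⟩
      by_cases hpos : 0 < a 1 true 2 ∧ 0 < a 2 true 1
      · exact covN_of_boxCov h (boxCov_S (fun i => a i true) hself hcb h01 h02 h10 h20
          hpos.1 hpos.2)
      · exact covN_of_boxCov h (boxCov_E (fun i => a i true) hself hcb h01 h02 h10 h20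
          h12 h21 hpos)
    · apply covN_perm h 13 (Equiv.swap 1 2)
      intro K' hK'
      refine covN_of_boxCov hK' (boxCov_C _ ?_ ?_ ?_ ?_ ?_ ?_)
      · intro i
        rw [permE_apply]
        exact hself _
      · intro i j
        rw [permE_apply]
        exact hcb _ _
      · rw [permE_apply, s0, s1]; exact h02
      · rw [permE_apply, s0, s2]; exact h01
      · rw [permE_apply, s1, s0]; exact h20
      · obtain ⟨d, hd, hd0⟩ := n1
        refine ⟨Equiv.swap 1 2 d, ?_, ?_⟩
        · intro h'
          apply hd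
          have := congrArg (Equiv.swap (1 : Fin 3) 2) h'
          rw [Equiv.swap_apply_self, s2] at this
          exact this
        · rw [permE_apply, s2, Equiv.swap_apply_self]
          exact hd0
  · exact covN_of_boxCov h (boxCov_C (fun i => a i true) hself hcb h01 h02 h10 n2)

theorem covN_NF {K : Set (Fin 3 → ℝ)} {a : Fin 3 → Bool → Fin 3 → ℝ} (h : NF K a) :
    CovN 13 K := by
  have hself : ∀ i, a i true i = 1 := by
    intro i
    rw [h.chords.self]
    simp [sg]
  have hcb : ∀ i j, |a i true j| ≤ 1 := fun i j => h.cube _ (h.chords.mem i true) j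
  by_cases hne : ∀ i, ∃ d, d ≠ i ∧ a i true d ≠ 0
  · exact covN_of_boxCov h (boxCov_T _ hself hcb hne)
  · push Not at hne
    obtain ⟨z, hz⟩ := hne
    apply covN_perm h 13 (Equiv.swap 0 z)
    intro K' hK'
    apply covN_centre0 hK'
    · rw [permE_apply, Equiv.swap_apply_left]
      apply hz
      intro h'
      have := (Equiv.swap (0 : Fin 3) z).injective (h'.trans (Equiv.swap_apply_left 0 z).symm)
      exact absurd this (by decide)
    · rw [permE_apply, Equiv.swap_apply_left]
      apply hz
      intro h'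
      have := (Equiv.swap (0 : Fin 3) z).injective (h'.trans (Equiv.swap_apply_left 0 z).symm)
      exact absurd this (by decide)

/-- every convex body in `ℝ³` is covered by at most 13 translates of its interior -/
theorem covN13 (K : Set (EuclideanSpace ℝ (Fin 3))) (hK : Convex ℝ K) (hc : IsCompact K)
    (hi : (interior K).Nonempty) : CovN 13 K := by
  let A : EuclideanSpace ℝ (Fin 3) ≃L[ℝ] (Fin 3 → ℝ) := EuclideanSpace.equiv (Fin 3) ℝ
  apply covN_of_image A 0
  apply covN_of_NF (by norm_num) 13 fun K a h => covN_NF h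
  · rintro _ ⟨x, hx, rfl⟩ _ ⟨y, hy, rfl⟩ s t hs ht hst
    refine ⟨s • x + t • y, hK hx hy hs ht hst, ?_⟩
    simp
  · exact hc.image (by fun_prop)
  · have : interior ((fun x => A x + 0) '' K) = (fun x => A x + 0) '' interior K := by
      have := (A.toHomeomorph.trans (Homeomorph.addRight 0)).image_interior K
      exact this.symm
    rw [this]
    exact hi.image _

end Pool.Agent.Y512
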